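import Mathlib
import Pool.Agent.Lib.MP_5bc52d_co.Tree.Order

/-!
# The signed number of placements around a subset
-/

open Finset

set_option linter.unusedSectionVars false

namespace Pool.Agent.Lib.MP_5bc52d_co.LinTerm

open Pool.Agent.Lib.MP_5bc52d_co.Tree

variable {P : Type*} [Fintype P] [DecidableEq P] [PartialOrder P]

/-- `x < y` and no element of `U` lies between -/
def CovIn (U : Finset P) (x y : P) : Prop := x < y ∧ ∀ z ∈ U, x < z → ¬ z < y

theorem cov_below {U : Finset P} {a b : P} (ha : a ∈ U) (h : a < b) :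
    ∃ c ∈ U, CovIn U c b ∧ (a = c ∨ a < c) := by
  classical
  obtain ⟨c, hc, hmax⟩ := (U.filter (fun c => a ≤ c ∧ c < b)).exists_maximal
    ⟨a, Finset.mem_filter.mpr ⟨ha, le_refl a, h⟩⟩
  rw [Finset.mem_filter] at hc
  refine ⟨c, hc.1, ⟨hc.2.2, fun z hz hcz hzb => ?_⟩, hc.2.1.eq_or_lt⟩
  have h1 := hmax (Finset.mem_filter.mpr ⟨hz, hc.2.1.trans hcz.le, hzb⟩) hcz.le
  exact absurd hcz (not_lt_of_ge h1)

theorem cov_above {U : Finset P} {a b : P} (ha : a ∈ U) (h : b < a) :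
    ∃ c ∈ U, CovIn U b c ∧ (a = c ∨ c < a) := by
  classical
  obtain ⟨c, hc, hmin⟩ := (U.filter (fun c => c ≤ a ∧ b < c)).exists_minimal
    ⟨a, Finset.mem_filter.mpr ⟨ha, le_refl a, h⟩⟩
  rw [Finset.mem_filter] at hc
  refine ⟨c, hc.1, ⟨hc.2.2, fun z hz hbz hzc => ?_⟩, ?_⟩
  · have h1 := hmin (Finset.mem_filter.mpr ⟨hz, hzc.le.trans hc.2.1, hbz⟩) hzc.le
    exact absurd hzc (not_lt_of_ge h1)
  · rcases hc.2.1.eq_or_lt with h1 | h1
    · exact Or.inl h1.symm
    · exact Or.inr h1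

theorem wk_of_cov {U S : Finset P} {w : P → ℤ} (hS : S ⊆ U)
    (h : ∀ b ∈ S, ∀ c ∈ U, CovIn U c b → c ∈ S ∧ w c < w b) :
    Wk (fun a b : P => a < b) w U S := by
  refine ⟨hS, fun a ha b => ?_⟩
  induction b using WellFoundedLT.induction with
  | _ b ih =>
    intro hb hab
    obtain ⟨c, hc, hcb, h1⟩ := cov_below ha hab
    obtain ⟨h2, h3⟩ := h b hb c hc hcb
    rcases h1 with h1 | h1
    · exact h1 ▸ ⟨h2, h3⟩
    · have h4 := ih c hcb.1 h2 h1
      exact ⟨h4.1, h4.2.trans h3⟩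

theorem wk_of_cov' {U S : Finset P} {w : P → ℤ} (hS : S ⊆ U)
    (h : ∀ b ∈ S, ∀ c ∈ U, CovIn U b c → c ∈ S ∧ w c < w b) :
    Wk (fun a b : P => b < a) w U S := by
  refine ⟨hS, fun a ha b => ?_⟩
  induction b using WellFoundedGT.induction with
  | _ b ih =>
    intro hb hab
    obtain ⟨c, hc, hbc, h1⟩ := cov_above ha hab
    obtain ⟨h2, h3⟩ := h b hb c hc hbc
    rcases h1 with h1 | h1
    · exact h1 ▸ ⟨h2, h3⟩
    · have h4 := ih c hbc.1 h2 h1
      exact ⟨h4.1, h4.2.trans h3⟩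

/-- a way up -/
def UO (w : P → ℤ) (U M : Finset P) (x : P) : Prop :=
  ∃ y ∈ U, CovIn U x y ∧ (y ∈ M ∨ w x < w y)

/-- a way down -/
def DO (w : P → ℤ) (U M : Finset P) (x : P) : Prop :=
  ∃ y ∈ U, CovIn U y x ∧ (y ∈ M ∨ w x < w y)

theorem tog_mem {w : P → ℤ} (hw : Function.Injective w) {U : Finset P}
    {p : Finset P × Finset P} (hp : p ∈ pr w U) {z : P} (hzU : z ∈ U) (hzM : z ∉ mid U p)
    (hu : ¬ UO w U (mid U p) z) (hd : ¬ DO w U (mid U p) z) : tog z p ∈ pr w U := by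
  obtain ⟨hI, hF⟩ := mem_pr.mp hp
  have hor : z ∈ p.1 ∨ z ∈ p.2 := by
    by_contra h
    rw [not_or] at h
    exact hzM (mem_mid.mpr ⟨hzU, h.1, h.2⟩)
  have hup : ∀ c ∈ U, CovIn U z c → w c < w z ∧ (c ∈ p.1 ∨ c ∈ p.2) := by
    intro c hc h
    constructor
    · rcases lt_trichotomy (w c) (w z) with h1 | h1 | h1
      · exact h1
      · exact absurd (hw h1) h.1.ne'
      · exact absurd ⟨c, hc, h, Or.inr h1⟩ hu
    · by_contra h1
      rw [not_or] at h1
      exact hu ⟨c, hc, h, Or.inl (mem_mid.mpr ⟨hc, h1.1, h1.2⟩)⟩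
  have hdn : ∀ c ∈ U, CovIn U c z → w c < w z ∧ (c ∈ p.1 ∨ c ∈ p.2) := by
    intro c hc h
    constructor
    · rcases lt_trichotomy (w c) (w z) with h1 | h1 | h1
      · exact h1
      · exact absurd (hw h1) h.1.ne
      · exact absurd ⟨c, hc, h, Or.inr h1⟩ hd
    · by_contra h1
      rw [not_or] at h1
      exact hd ⟨c, hc, h, Or.inl (mem_mid.mpr ⟨hc, h1.1, h1.2⟩)⟩
  rw [tog]
  split_ifs with hzI
  · have hzF : z ∉ p.2 := fun h => pr_disj hp hzI h
    have hc : ∀ c ∈ U, CovIn U z c → c ∈ p.2 := by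
      intro c hc h
      refine (hup c hc h).2.resolve_left (fun h1 => ?_)
      have h2 := (hI.2 z hzU c h1 h.1).2
      have h3 := (hup c hc h).1
      omega
    rw [mem_pr]
    refine ⟨⟨(Finset.erase_subset _ _).trans hI.1, fun a ha b hb hab => ?_⟩, ?_, ?_⟩
    · rw [Finset.mem_erase] at hb ⊢
      have h1 := hI.2 a ha b hb.2 hab
      refine ⟨⟨fun h2 => ?_, h1.1⟩, h1.2⟩
      subst h2
      obtain ⟨c, hcU, hzc, hcb⟩ := cov_above (hI.1 hb.2) hab
      have h3 := hc c hcU hzc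
      rcases hcb with h4 | h4
      · exact pr_disj hp hb.2 (h4 ▸ h3)
      · exact pr_disj hp (hI.2 c hcU b hb.2 h4).1 h3
    · intro x hx
      rw [Finset.mem_sdiff, Finset.mem_erase]
      rcases Finset.mem_insert.mp hx with h1 | h1
      · subst h1
        exact ⟨hzU, fun h => h.1 rfl⟩
      · have h2 := Finset.mem_sdiff.mp (hF.1 h1)
        exact ⟨h2.1, fun h => h2.2 h.2⟩
    · intro a ha b hb hab
      rw [Finset.mem_sdiff, Finset.mem_erase, not_and] at ha
      rcases Finset.mem_insert.mp hb with h1 | h1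
      · subst h1
        have haz : a ≠ b := hab.ne'
        have haI : a ∉ p.1 := ha.2 haz
        obtain ⟨c, hcU, hbc, hca⟩ := cov_above ha.1 hab
        have h3 := hc c hcU hbc
        have h4 := (hup c hcU hbc).1
        rcases hca with h5 | h5
        · subst h5
          exact ⟨Finset.mem_insert_of_mem h3, h4⟩
        · have h6 := hF.2 a (Finset.mem_sdiff.mpr ⟨ha.1, haI⟩) c h3 h5
          exact ⟨Finset.mem_insert_of_mem h6.1, h6.2.trans h4⟩
      · have haz : a ≠ z := by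
          rintro rfl
          have hbU := (Finset.mem_sdiff.mp (hF.1 h1)).1
          exact pr_disj hp (hI.2 b hbU a hzI hab).1 h1
        have h6 := hF.2 a (Finset.mem_sdiff.mpr ⟨ha.1, ha.2 haz⟩) b h1 hab
        exact ⟨Finset.mem_insert_of_mem h6.1, h6.2⟩
  · have hzF : z ∈ p.2 := hor.resolve_left hzI
    have hc : ∀ c ∈ U, CovIn U c z → c ∈ p.1 := by
      intro c hc h
      refine (hdn c hc h).2.resolve_right (fun h1 => ?_)
      have h2 := (hF.2 z (hF.1 hzF) c h1 h.1).2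
      have h3 := (hdn c hc h).1
      omega
    rw [mem_pr]
    refine ⟨⟨Finset.insert_subset hzU hI.1, fun a ha b hb hab => ?_⟩, ?_, ?_⟩
    · rcases Finset.mem_insert.mp hb with h1 | h1
      · subst h1
        obtain ⟨c, hcU, hcb, hac⟩ := cov_below ha hab
        have h3 := hc c hcU hcb
        have h4 := (hdn c hcU hcb).1
        rcases hac with h5 | h5
        · subst h5
          exact ⟨Finset.mem_insert_of_mem h3, h4⟩
        · have h6 := hI.2 a ha c h3 h5
          exact ⟨Finset.mem_insert_of_mem h6.1, h6.2.trans h4⟩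
      · have h6 := hI.2 a ha b h1 hab
        exact ⟨Finset.mem_insert_of_mem h6.1, h6.2⟩
    · intro x hx
      rw [Finset.mem_erase] at hx
      have h2 := Finset.mem_sdiff.mp (hF.1 hx.2)
      rw [Finset.mem_sdiff, Finset.mem_insert, not_or]
      exact ⟨h2.1, hx.1, h2.2⟩
    · intro a ha b hb hab
      rw [Finset.mem_sdiff, Finset.mem_insert, not_or] at ha
      rw [Finset.mem_erase] at hb ⊢
      have h6 := hF.2 a (Finset.mem_sdiff.mpr ⟨ha.1, ha.2.2⟩) b hb.2 hab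
      exact ⟨⟨ha.2.1, h6.1⟩, h6.2⟩

/-- no way out of some element: the signed number is zero -/
theorem SM_zero {w : P → ℤ} (hw : Function.Injective w) {U M : Finset P} {z : P}
    (hzU : z ∈ U) (hzM : z ∉ M) (hu : ¬ UO w U M z) (hd : ¬ DO w U M z) : SM w U M = 0 := by
  rw [SM]
  have hor : ∀ p ∈ (pr w U).filter (fun p => mid U p = M), z ∈ p.1 ∨ z ∈ p.2 := by
    intro p hp
    rw [Finset.mem_filter] at hp
    by_contra h
    rw [not_or] at h
    exact hzM (hp.2 ▸ mem_mid.mpr ⟨hzU, h.1, h.2⟩)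
  have hdj : ∀ p ∈ (pr w U).filter (fun p => mid U p = M), ¬ (z ∈ p.1 ∧ z ∈ p.2) := by
    intro p hp h
    exact pr_disj (Finset.mem_filter.mp hp).1 h.1 h.2
  refine Finset.sum_involution (fun p _ => tog z p) ?_ ?_ ?_ ?_
  · intro p hp
    simp only [tog]
    split_ifs with h
    · have h2 : z ∉ p.2 := fun h' => hdj p hp ⟨h, h'⟩
      rw [Finset.card_insert_of_notMem h2, pow_succ]
      ring
    · have h2 : z ∈ p.2 := (hor p hp).resolve_left h
      rw [← Finset.card_erase_add_one h2, pow_succ]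
      ring
  · intro p hp _ heq
    have h1 := congrArg (fun q : Finset P × Finset P => z ∈ q.1) heq
    simp only [tog] at h1
    split_ifs at h1 with h
    · simp [h] at h1
    · simp [h] at h1
  · intro p hp
    have hp' := Finset.mem_filter.mp hp
    rw [Finset.mem_filter]
    refine ⟨tog_mem hw hp'.1 hzU (by rw [hp'.2]; exact hzM) (by rw [hp'.2]; exact hu)
      (by rw [hp'.2]; exact hd), ?_⟩
    rw [mid_tog (hor p hp), hp'.2]
  · intro p hp
    exact tog_tog (hor p hp) (hdj p hp)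

theorem up_notMem {w : P → ℤ} {U M : Finset P} {p : Finset P × Finset P} (hp : p ∈ pr w U)
    (hm : mid U p = M) {x : P} (hx : x ∈ U) (h : UO w U M x) : x ∉ p.2 := by
  obtain ⟨hI, hF⟩ := mem_pr.mp hp
  obtain ⟨y, hy, hxy, h⟩ := h
  intro hx2
  have hy1 : y ∉ p.1 := fun h' => pr_disj hp (hI.2 x hx y h' hxy.1).1 hx2
  have h3 := hF.2 y (Finset.mem_sdiff.mpr ⟨hy, hy1⟩) x hx2 hxy.1
  rcases h with h | h
  · rw [← hm, mem_mid] at h
    exact h.2.2 h3.1
  · omega

theorem down_notMem {w : P → ℤ} {U M : Finset P} {p : Finset P × Finset P} (hp : p ∈ pr w U)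
    (hm : mid U p = M) {x : P} (h : DO w U M x) : x ∉ p.1 := by
  obtain ⟨hI, hF⟩ := mem_pr.mp hp
  obtain ⟨y, hy, hyx, h⟩ := h
  intro hx1
  have h3 := hI.2 y hy x hx1 hyx.1
  rcases h with h | h
  · rw [← hm, mem_mid] at h
    exact h.2.1 h3.1
  · omega

/-- ways up and down from the same element: there is no placement -/
theorem SM_zero' {w : P → ℤ} {U M : Finset P} {x : P} (hx : x ∈ U) (hxM : x ∉ M)
    (hu : UO w U M x) (hd : DO w U M x) : SM w U M = 0 := by
  rw [SM, Finset.filter_eq_empty_iff.mpr, Finset.sum_empty]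
  intro p hp hm
  exact hxM (hm ▸ mem_mid.mpr ⟨hx, down_notMem hp hm hd, up_notMem hp hm hx hu⟩)

open Classical in
/-- the sign of the placement -/
theorem SM_one {w : P → ℤ} (hw : Function.Injective w) {U M : Finset P} (hMU : M ⊆ U)
    (h1 : ∀ x ∈ U, x ∉ M → UO w U M x ∨ DO w U M x)
    (h2 : ∀ x ∈ U, x ∉ M → ¬ (UO w U M x ∧ DO w U M x)) :
    SM w U M = (-1) ^ (U.filter (fun x => x ∉ M ∧ DO w U M x)).card := by
  classical
  set I := U.filter (fun x => x ∉ M ∧ UO w U M x) with hI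
  set F := U.filter (fun x => x ∉ M ∧ DO w U M x) with hF
  have mI : ∀ x, x ∈ I ↔ x ∈ U ∧ x ∉ M ∧ UO w U M x := fun x => by rw [hI, Finset.mem_filter]
  have mF : ∀ x, x ∈ F ↔ x ∈ U ∧ x ∉ M ∧ DO w U M x := fun x => by rw [hF, Finset.mem_filter]
  have hWI : Wk (fun a b : P => a < b) w U I := by
    refine wk_of_cov (Finset.filter_subset _ _) (fun b hb c hc hcb => ?_)
    obtain ⟨hbU, hbM, hb'⟩ := (mI b).mp hb
    have hnd : ¬ DO w U M b := fun h => h2 b hbU hbM ⟨hb', h⟩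
    have hcM : c ∉ M := fun h => hnd ⟨c, hc, hcb, Or.inl h⟩
    have hlt : w c < w b := by
      rcases lt_trichotomy (w c) (w b) with h | h | h
      · exact h
      · exact absurd (hw h) hcb.1.ne
      · exact absurd ⟨c, hc, hcb, Or.inr h⟩ hnd
    exact ⟨(mI c).mpr ⟨hc, hcM, b, hbU, hcb, Or.inr hlt⟩, hlt⟩
  have hWF : Wk (fun a b : P => b < a) w U F := by
    refine wk_of_cov' (Finset.filter_subset _ _) (fun b hb c hc hbc => ?_)
    obtain ⟨hbU, hbM, hb'⟩ := (mF b).mp hb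
    have hnd : ¬ UO w U M b := fun h => h2 b hbU hbM ⟨h, hb'⟩
    have hcM : c ∉ M := fun h => hnd ⟨c, hc, hbc, Or.inl h⟩
    have hlt : w c < w b := by
      rcases lt_trichotomy (w c) (w b) with h | h | h
      · exact h
      · exact absurd (hw h) hbc.1.ne'
      · exact absurd ⟨c, hc, hbc, Or.inr h⟩ hnd
    exact ⟨(mF c).mpr ⟨hc, hcM, b, hbU, hbc, Or.inr hlt⟩, hlt⟩
  have hFI : F ⊆ U \ I := by
    intro x hx
    obtain ⟨h3, h4, h5⟩ := (mF x).mp hx
    rw [Finset.mem_sdiff]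
    exact ⟨h3, fun h6 => h2 x h3 h4 ⟨((mI x).mp h6).2.2, h5⟩⟩
  have hp : (I, F) ∈ pr w U := by
    rw [mem_pr]
    exact ⟨hWI, hFI, fun a ha b hb hab => hWF.2 a (Finset.mem_sdiff.mp ha).1 b hb hab⟩
  have hone : (pr w U).filter (fun p => mid U p = M) = {(I, F)} := by
    ext p
    rw [Finset.mem_filter, Finset.mem_singleton]
    constructor
    · rintro ⟨hp', hm⟩
      obtain ⟨hpI, hpF⟩ := mem_pr.mp hp'
      have hUO : ∀ x ∈ U, x ∉ M → UO w U M x → x ∈ p.1 := by
        intro x hx hxM h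
        by_contra hx1
        exact hxM (hm ▸ mem_mid.mpr ⟨hx, hx1, up_notMem hp' hm hx h⟩)
      have hDO : ∀ x ∈ U, x ∉ M → DO w U M x → x ∈ p.2 := by
        intro x hx hxM h
        by_contra hx2
        exact hxM (hm ▸ mem_mid.mpr ⟨hx, down_notMem hp' hm h, hx2⟩)
      have hM1 : ∀ x ∈ p.1, x ∈ U ∧ x ∉ M := fun x hx =>
        ⟨hpI.1 hx, fun h => (mem_mid.mp (hm ▸ h)).2.1 hx⟩
      have hM2 : ∀ x ∈ p.2, x ∈ U ∧ x ∉ M := fun x hx =>
        ⟨(Finset.mem_sdiff.mp (hpF.1 hx)).1, fun h => (mem_mid.mp (hm ▸ h)).2.2 hx⟩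
      apply Prod.ext
      · ext x
        rw [mI]
        constructor
        · intro hx
          obtain ⟨h3, h4⟩ := hM1 x hx
          refine ⟨h3, h4, (h1 x h3 h4).resolve_right (fun h5 => ?_)⟩
          exact pr_disj hp' hx (hDO x h3 h4 h5)
        · rintro ⟨h3, h4, h5⟩
          exact hUO x h3 h4 h5
      · ext x
        rw [mF]
        constructor
        · intro hx
          obtain ⟨h3, h4⟩ := hM2 x hx
          refine ⟨h3, h4, (h1 x h3 h4).resolve_left (fun h5 => ?_)⟩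
          exact pr_disj hp' (hUO x h3 h4 h5) hx
        · rintro ⟨h3, h4, h5⟩
          exact hDO x h3 h4 h5
    · rintro rfl
      refine ⟨hp, ?_⟩
      ext x
      rw [mem_mid]
      constructor
      · rintro ⟨h3, h4, h5⟩
        by_contra h6
        rcases h1 x h3 h6 with h7 | h7
        · exact h4 ((mI x).mpr ⟨h3, h6, h7⟩)
        · exact h5 ((mF x).mpr ⟨h3, h6, h7⟩)
      · intro h3
        exact ⟨hMU h3, fun h4 => ((mI x).mp h4).2.1 h3, fun h4 => ((mF x).mp h4).2.1 h3⟩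
  rw [SM, hone, Finset.sum_singleton]

end Pool.Agent.Lib.MP_5bc52d_co.LinTerm
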