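import Mathlib
import Pool.Agent.Lib.MP_5bc52d_co.Tree.Main
import Pool.Agent.Lib.MP_5bc52d_co.LinTerm.Pairs

/-!
# Labelled posets whose generating function has a nonzero linear term
-/

open Finset Polynomial

set_option linter.unusedSectionVars false

namespace Pool.Agent.Lib.MP_5bc52d_co.LinTerm

open Pool.Agent.Lib.MP_5bc52d_co.Key Pool.Agent.Lib.MP_5bc52d_co.Cut
  Pool.Agent.Lib.MP_5bc52d_co.Tree

variable {P : Type*} [Fintype P] [DecidableEq P] [PartialOrder P]

/-- outside `M` every element has ways out, all up or all down -/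
def Core (w : P → ℤ) (U M : Finset P) : Prop :=
  M ⊆ U ∧ ∀ x ∈ U, x ∉ M → (UO w U M x ∨ DO w U M x) ∧ ¬ (UO w U M x ∧ DO w U M x)

/-- nonempty and not the union of two nonempty parts without relations -/
def Cnn (M : Finset P) : Prop :=
  M.Nonempty ∧ ∀ S T : Finset P, S ∪ T = M → S.Nonempty → T.Nonempty → Disjoint S T →
    ¬ ∀ a ∈ S, ∀ b ∈ T, ¬ a < b ∧ ¬ b < a

/-- the smallest connected cores -/
def Least (w : P → ℤ) (U N : Finset P) : Prop :=
  Core w U N ∧ Cnn N ∧ ∀ N', Core w U N' → Cnn N' → N.card ≤ N'.card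

variable {Q : Subring R} (hQ : ∀ F : R, F ∈ Q ↔ IsQS F)

include hQ in
theorem cnn_of_lin {ω : P → ℕ} (hω : Function.Injective ω) {l : List (Bool × ℚ)} {c : Bool}
    {t : ℚ} {M : Finset P} (h : lin ω l c t M ≠ 0) : Cnn M := by
  constructor
  · rw [Finset.nonempty_iff_ne_empty]
    intro h0
    rw [h0, lin_empty] at h
    exact h rfl
  · intro S T hST hS hT hd hun
    have hS' := hS
    obtain ⟨x, -⟩ := hS'
    apply h
    have h1 := lin_zero_of_split hQ hω x l c t hS hT hd hun
    rw [hST] at h1
    exact h1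

theorem core_of_SM {w : P → ℤ} (hw : Function.Injective w) {U M : Finset P} (hMU : M ⊆ U)
    (h : SM w U M ≠ 0) : Core w U M := by
  refine ⟨hMU, fun x hx hxM => ⟨?_, fun h1 => h (SM_zero' hx hxM h1.1 h1.2)⟩⟩
  by_contra h1
  rw [not_or] at h1
  exact h (SM_zero hw hx hxM h1.1 h1.2)

include hQ in
/-- if the members of size `s` do not cancel then some value is nonzero -/
theorem exists_value {ω : P → ℕ} (k : Bool) (l : List (Bool × ℚ))
    (c : Bool) (t : ℚ) {U : Finset P} {s : ℕ} (hs : s ≤ U.card)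
    (h : ∑ N ∈ U.powerset with N.card = s, SM (Cut.wt ω k) U N * lin ω l c t N ≠ 0) :
    ∃ y : ℚ, lin ω ((k, y) :: l) c t U ≠ 0 := by
  classical
  set f : ℚ[X] := ∑ N ∈ U.powerset,
    C (SM (Cut.wt ω k) U N * lin ω l c t N) * X ^ (U.card - N.card) with hf
  have hf0 : f ≠ 0 := by
    intro h0
    apply h
    have h1 : f.coeff (U.card - s) = 0 := by rw [h0, coeff_zero]
    rw [hf, finsetSum_coeff] at h1
    rw [Finset.sum_filter]
    refine (Finset.sum_congr rfl ?_).trans h1
    intro N hN
    rw [coeff_C_mul_X_pow]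
    have h2 := Finset.card_le_card (Finset.mem_powerset.mp hN)
    by_cases h3 : N.card = s
    · rw [if_pos h3, if_pos (by rw [h3])]
    · rw [if_neg h3, if_neg (by omega)]
  obtain ⟨y, hy⟩ : ∃ y : ℚ, f.eval y ≠ 0 := by
    by_contra h1
    push Not at h1
    exact hf0 (Polynomial.funext (fun y => by rw [h1 y, eval_zero]))
  refine ⟨y, ?_⟩
  rw [lin_cons]
  rw [hf, eval_finsetSum] at hy
  convert hy using 1
  apply Finset.sum_congr rfl
  intro N _
  rw [eval_mul, eval_C, eval_pow, eval_X]

/-- exactly one element without a way out -/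
theorem lin_one {ω : P → ℕ} (hω : Function.Injective ω) (k : Bool) {U : Finset P} {z : P}
    (hz : z ∈ U) (hc : Core (Cut.wt ω k) U {z}) (hzU : ¬ UO (Cut.wt ω k) U ∅ z)
    (hzD : ¬ DO (Cut.wt ω k) U ∅ z) : lin ω [] (!k) 1 U ≠ 0 := by
  classical
  set u : P → ℤ := Cut.wt ω k with hu
  have huc : -(Cut.wt ω (!k)) = u := by
    rw [hu, wt_not, neg_neg]
  have huinj : Function.Injective u := wt_inj hω k
  have hv : ∀ c p, Cut.wt ω (!c) p = - Cut.wt ω c p := fun c p => by rw [wt_not]; rfl
  have hno : ∀ x ∈ U, ¬ (UO u U ∅ x ∧ DO u U ∅ x) := by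
    rintro x hx ⟨⟨a, ha, hxa, ha'⟩, b, hb, hbx, hb'⟩
    by_cases hxz : x = z
    · subst hxz
      exact hzU ⟨a, ha, hxa, ha'⟩
    · exact (hc.2 x hx (by rw [Finset.mem_singleton]; exact hxz)).2
        ⟨⟨a, ha, hxa, Or.inr (ha'.resolve_left (Finset.notMem_empty _))⟩,
          b, hb, hbx, Or.inr (hb'.resolve_left (Finset.notMem_empty _))⟩
  have hS1 : U.filter (fun x => ¬ DO u U ∅ x) ⊆ AL (fun a b : P => a < b) u U := by
    apply Wk_subset_AL
    refine LinTerm.wk_of_cov (Finset.filter_subset _ _) (fun b hb c hc hcb => ?_)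
    obtain ⟨hbU, hb'⟩ := Finset.mem_filter.mp hb
    have hlt : u c < u b := by
      rcases lt_trichotomy (u c) (u b) with h | h | h
      · exact h
      · exact absurd (huinj h) hcb.1.ne
      · exact absurd ⟨c, hc, hcb, Or.inr h⟩ hb'
    exact ⟨Finset.mem_filter.mpr ⟨hc, fun h => hno c hc ⟨⟨b, hbU, hcb, Or.inr hlt⟩, h⟩⟩, hlt⟩
  have hS2 : U.filter (fun x => ¬ UO u U ∅ x) ⊆ AL (fun a b : P => b < a) u U := by
    apply Wk_subset_AL
    refine LinTerm.wk_of_cov' (Finset.filter_subset _ _) (fun b hb c hc hbc => ?_)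
    obtain ⟨hbU, hb'⟩ := Finset.mem_filter.mp hb
    have hlt : u c < u b := by
      rcases lt_trichotomy (u c) (u b) with h | h | h
      · exact h
      · exact absurd (huinj h) hbc.1.ne'
      · exact absurd ⟨c, hc, hbc, Or.inr h⟩ hb'
    exact ⟨Finset.mem_filter.mpr ⟨hc, fun h => hno c hc ⟨h, ⟨b, hbU, hbc, Or.inr hlt⟩⟩⟩, hlt⟩
  have hPl : PlP (fun a b : P => a < b) (fun a b : P => b < a) (Cut.wt ω (!k)) U U := by
    refine ⟨Finset.Subset.refl _, fun a ha _ _ _ => ha, fun x hx => ?_⟩
    rw [huc]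
    by_cases h : DO u U ∅ x
    · exact Or.inr (hS2 (Finset.mem_filter.mpr ⟨hx, fun h' => hno x hx ⟨h', h⟩⟩))
    · exact Or.inl (hS1 (Finset.mem_filter.mpr ⟨hx, h⟩))
  have hFr : Fr (fun a b : P => a < b) (fun a b : P => b < a) (Cut.wt ω (!k)) U = {z} := by
    ext x
    rw [Fr, huc, Finset.mem_inter, Finset.mem_singleton]
    constructor
    · rintro ⟨h1, h2⟩
      rw [mem_AL] at h1 h2
      by_contra hxz
      rcases (hc.2 x h1.1 (by rw [Finset.mem_singleton]; exact hxz)).1 with h | h
      · obtain ⟨y, hy, hxy, h⟩ := h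
        have h3 := h2.2 y hy x h1.1 hxy.1 (Or.inl rfl)
        rcases h with h | h
        · rw [Finset.mem_singleton] at h
          subst h
          exact hzD ⟨x, h1.1, hxy, Or.inr h3⟩
        · omega
      · obtain ⟨y, hy, hyx, h⟩ := h
        have h3 := h1.2 y hy x h1.1 hyx.1 (Or.inl rfl)
        rcases h with h | h
        · rw [Finset.mem_singleton] at h
          subst h
          exact hzU ⟨x, h1.1, hyx, Or.inr h3⟩
        · omega
    · rintro rfl
      exact ⟨hS1 (Finset.mem_filter.mpr ⟨hz, hzD⟩), hS2 (Finset.mem_filter.mpr ⟨hz, hzU⟩)⟩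
  have hw : Wd ([] : List (Bool × ℚ)) (!k) 1 = [(!(!k), C 1), (!k, X - C 1)] := by
    simp [Wd, mir]
  rw [lin, hw, NL_pair' (r := fun a b : P => a < b) (fun x y z h1 h2 => lt_trans h1 h2) hv,
    if_pos hPl, hFr, Finset.card_singleton, pow_one]
  have h1 : (C 1 : ℚ[X]) + (X - C 1) = X := by ring
  rw [h1, C_1, one_pow, one_mul, coeff_mul_X, coeff_zero_eq_eval_zero, eval_pow, eval_sub,
    eval_X, eval_one, zero_sub]
  exact pow_ne_zero _ (by norm_num)

theorem lin_single (ω : P → ℕ) (x : P) : lin ω [] false 1 {x} = 1 := by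
  have hw : Wd ([] : List (Bool × ℚ)) false 1 = [(true, C 1), (false, X - C 1)] := by
    simp [Wd, mir]
  rw [lin, hw, NL_one (r := fun a b : P => a < b) (fun x => lt_irrefl x)]
  simp

theorem wks_pair {w : P → ℤ} {a b : P} (hab : a < b) {I : Finset P} :
    I ∈ wks (fun a b : P => a < b) w {a, b} ↔ I = ∅ ∨ I = {a} ∨ (w a < w b ∧ I = {a, b}) := by
  rw [mem_wks]
  constructor
  · rintro ⟨h1, h2⟩
    by_cases hb : b ∈ I
    · have h3 := h2 a (by simp) b hb hab
      refine Or.inr (Or.inr ⟨h3.2, Finset.Subset.antisymm h1 ?_⟩)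
      intro x hx
      rcases Finset.mem_insert.mp hx with h | h
      · exact h ▸ h3.1
      · rw [Finset.mem_singleton] at h
        exact h ▸ hb
    · by_cases ha : a ∈ I
      · refine Or.inr (Or.inl (Finset.Subset.antisymm (fun x hx => ?_) (by simpa using ha)))
        rcases Finset.mem_insert.mp (h1 hx) with h | h
        · exact Finset.mem_singleton.mpr h
        · rw [Finset.mem_singleton] at h
          exact absurd (h ▸ hx) hb
      · left
        rw [Finset.eq_empty_iff_forall_notMem]
        intro x hx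
        rcases Finset.mem_insert.mp (h1 hx) with h | h
        · exact ha (h ▸ hx)
        · rw [Finset.mem_singleton] at h
          exact hb (h ▸ hx)
  · have hnn : ∀ x ∈ ({a, b} : Finset P), ∀ y ∈ ({a, b} : Finset P), x < y → x = a ∧ y = b := by
      intro x hx y hy hxy
      rw [Finset.mem_insert, Finset.mem_singleton] at hx hy
      rcases hx with rfl | rfl
      · rcases hy with rfl | rfl
        · exact absurd hxy (lt_irrefl _)
        · exact ⟨rfl, rfl⟩
      · rcases hy with rfl | rfl
        · exact absurd hxy (lt_asymm hab)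
        · exact absurd hxy (lt_irrefl _)
    rintro (rfl | rfl | ⟨hw, rfl⟩)
    · exact ⟨Finset.empty_subset _, fun x _ y hy => absurd hy (Finset.notMem_empty y)⟩
    · refine ⟨by simp, fun x hx y hy hxy => ?_⟩
      rw [Finset.mem_singleton] at hy
      have h3 := hnn x hx y (by simp [hy]) hxy
      exact absurd (h3.2 ▸ hy) hab.ne'
    · refine ⟨Finset.Subset.refl _, fun x hx y hy hxy => ?_⟩
      have h3 := hnn x hx y hy hxy
      rw [h3.1, h3.2]
      exact ⟨by simp, hw⟩

theorem wk_single {w : P → ℤ} (b : P) : Wk (fun a b : P => a < b) w {b} {b} := by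
  refine ⟨Finset.Subset.refl _, fun x hx y hy hxy => ?_⟩
  rw [Finset.mem_singleton] at hx hy
  rw [hx, hy] at hxy
  exact absurd hxy (lt_irrefl b)

theorem lin_pair {ω : P → ℕ} (hω : Function.Injective ω) {a b : P} (hab : a < b) :
    lin ω [] false 1 {a, b} = if ω a < ω b then 1 else -1 := by
  classical
  have hw : Wd ([] : List (Bool × ℚ)) false 1 = [(true, C 1), (false, X - C 1)] := by
    simp [Wd, mir]
  have hne : ({a, b} : Finset P).card = 2 := Finset.card_pair hab.ne
  have hda : ({a, b} : Finset P) \ {a} = {b} := by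
    ext x
    simp only [Finset.mem_sdiff, Finset.mem_insert, Finset.mem_singleton]
    constructor
    · rintro ⟨h | h, h'⟩
      · exact absurd h h'
      · exact h
    · rintro rfl
      exact ⟨Or.inr rfl, hab.ne'⟩
  have hbW : Wk (fun a b : P => a < b) (Cut.wt ω false) {b} {b} := wk_single b
  rw [lin, hw, NL]
  by_cases h : ω a < ω b
  · have hs : wks (fun a b : P => a < b) (Cut.wt ω true) ({a, b} : Finset P) =
        {∅, {a}, {a, b}} := by
      ext I
      rw [wks_pair hab, wt_lt, if_pos rfl]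
      simp [h]
    have hnW : ¬ Wk (fun a b : P => a < b) (Cut.wt ω false) {a, b} {a, b} := by
      intro h1
      have h2 := (h1.2 a (by simp) b (by simp) hab).2
      rw [wt_lt, if_neg (by simp)] at h2
      omega
    have e1 : (∅ : Finset P) ∉ ({{a}, {a, b}} : Finset (Finset P)) := by
      rw [Finset.mem_insert, Finset.mem_singleton, not_or]
      exact ⟨(Finset.singleton_ne_empty a).symm, fun h3 => by
        rw [← h3, Finset.card_empty] at hne
        omega⟩
    have e2 : ({a} : Finset P) ∉ ({{a, b}} : Finset (Finset P)) := by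
      rw [Finset.mem_singleton]
      intro h3
      rw [← h3, Finset.card_singleton] at hne
      omega
    simp only [NL_single]
    rw [hs, Finset.sum_insert e1, Finset.sum_insert e2, Finset.sum_singleton,
      Finset.sdiff_empty, if_neg hnW, hda, if_pos hbW, Finset.sdiff_self, if_pos h]
    have e3 : Wk (fun a b : P => a < b) (Cut.wt ω false) (∅ : Finset P) ∅ :=
      ⟨Finset.Subset.refl _, fun x hx => absurd hx (Finset.notMem_empty x)⟩
    rw [if_pos e3]
    simp
  · have hlt : ω b < ω a := lt_of_le_of_ne (not_lt.mp h) (fun h1 => hab.ne' (hω h1))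
    have hs : wks (fun a b : P => a < b) (Cut.wt ω true) ({a, b} : Finset P) = {∅, {a}} := by
      ext I
      rw [wks_pair hab, wt_lt, if_pos rfl]
      simp [h]
    have hW : Wk (fun a b : P => a < b) (Cut.wt ω false) {a, b} {a, b} := by
      have h1 := (wks_pair (w := Cut.wt ω false) hab (I := {a, b})).mpr
        (Or.inr (Or.inr ⟨by rw [wt_lt, if_neg (by simp)]; exact hlt, rfl⟩))
      exact mem_wks.mp h1
    simp only [NL_single]
    rw [hs, Finset.sum_pair (Finset.singleton_ne_empty a).symm, Finset.sdiff_empty, if_pos hW,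
      hda, if_pos hbW, hne, if_neg h]
    have h3 : (C 1 : ℚ[X]) ^ (∅ : Finset P).card * (X - C 1) ^ 2 +
        C 1 ^ ({a} : Finset P).card * (X - C 1) ^ ({b} : Finset P).card = X ^ 2 - X := by
      rw [Finset.card_singleton, Finset.card_singleton, C_1]
      ring
    rw [h3, coeff_sub, coeff_X_pow, coeff_X_one]
    norm_num

open Classical in
/-- the sign of a small core -/
noncomputable def sgn (ω : P → ℕ) (k : Bool) (U N : Finset P) : ℤ :=
  (-1) ^ (U.filter (fun x => x ∉ N ∧ DO (Cut.wt ω k) U N x)).card *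
    (-1) ^ ((N ×ˢ N).filter (fun p => p.1 < p.2 ∧ ω p.2 < ω p.1)).card

theorem lin_small {ω : P → ℕ} (hω : Function.Injective ω) {N : Finset P} (hN : Cnn N)
    (h2 : N.card ≤ 2) [DecidablePred (fun p : P × P => p.1 < p.2 ∧ ω p.2 < ω p.1)] :
    lin ω [] false 1 N = (-1) ^ ((N ×ˢ N).filter (fun p => p.1 < p.2 ∧ ω p.2 < ω p.1)).card := by
  classical
  have h0 := Finset.card_pos.mpr hN.1
  have h1 : N.card = 1 ∨ N.card = 2 := by omega
  rcases h1 with h1 | h1
  · obtain ⟨x, rfl⟩ := Finset.card_eq_one.mp h1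
    rw [lin_single]
    have h3 : (({x} : Finset P) ×ˢ {x}).filter (fun p => p.1 < p.2 ∧ ω p.2 < ω p.1) = ∅ := by
      rw [Finset.filter_eq_empty_iff]
      intro p hp h4
      rw [Finset.mem_product, Finset.mem_singleton, Finset.mem_singleton] at hp
      rw [hp.1, hp.2] at h4
      exact lt_irrefl _ h4.1
    rw [h3, Finset.card_empty, pow_zero]
  · obtain ⟨a, b, hab, rfl⟩ := Finset.card_eq_two.mp h1
    have h3 : a < b ∨ b < a := by
      by_contra h4
      rw [not_or] at h4
      refine hN.2 {a} {b} rfl (Finset.singleton_nonempty a) (Finset.singleton_nonempty b)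
        (by rw [Finset.disjoint_singleton]; exact hab) ?_
      intro x hx y hy
      rw [Finset.mem_singleton] at hx hy
      rw [hx, hy]
      exact h4
    have key : ∀ a b : P, a < b → lin ω [] false 1 {a, b} =
        (-1) ^ ((({a, b} : Finset P) ×ˢ {a, b}).filter
          (fun p => p.1 < p.2 ∧ ω p.2 < ω p.1)).card := by
      intro a b hab
      rw [lin_pair hω hab]
      by_cases h : ω a < ω b
      · rw [if_pos h]
        have h5 : (({a, b} : Finset P) ×ˢ {a, b}).filter
            (fun p => p.1 < p.2 ∧ ω p.2 < ω p.1) = ∅ := by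
          rw [Finset.filter_eq_empty_iff]
          rintro ⟨x, y⟩ hp ⟨h6, h7⟩
          simp only [Finset.mem_product, Finset.mem_insert, Finset.mem_singleton] at hp h6 h7
          rcases hp.1 with rfl | rfl
          · rcases hp.2 with rfl | rfl
            · exact lt_irrefl _ h6
            · omega
          · rcases hp.2 with rfl | rfl
            · exact lt_asymm h6 hab
            · exact lt_irrefl _ h6
        rw [h5, Finset.card_empty, pow_zero]
      · rw [if_neg h]
        have hlt : ω b < ω a := lt_of_le_of_ne (not_lt.mp h) (fun h1 => hab.ne' (hω h1))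
        have h5 : (({a, b} : Finset P) ×ˢ {a, b}).filter
            (fun p => p.1 < p.2 ∧ ω p.2 < ω p.1) = {(a, b)} := by
          ext ⟨x, y⟩
          simp only [Finset.mem_filter, Finset.mem_product, Finset.mem_insert,
            Finset.mem_singleton, Prod.mk.injEq]
          constructor
          · rintro ⟨hp, h6, -⟩
            rcases hp.1 with rfl | rfl
            · rcases hp.2 with rfl | rfl
              · exact absurd h6 (lt_irrefl _)
              · exact ⟨rfl, rfl⟩
            · rcases hp.2 with rfl | rfl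
              · exact absurd h6 (lt_asymm hab)
              · exact absurd h6 (lt_irrefl _)
          · rintro ⟨rfl, rfl⟩
            exact ⟨⟨Or.inl rfl, Or.inr rfl⟩, hab, hlt⟩
        rw [h5, Finset.card_singleton, pow_one]
    rcases h3 with h3 | h3
    · exact key a b h3
    · rw [Finset.pair_comm]
      exact key b a h3

/-- sets with a nonzero linear term, by recursion -/
inductive Lin (ω : P → ℕ) : Finset P → Prop
  | one (k : Bool) (U : Finset P) (z : P) : z ∈ U → Core (Cut.wt ω k) U {z} →
      ¬ UO (Cut.wt ω k) U ∅ z → ¬ DO (Cut.wt ω k) U ∅ z → Lin ω U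
  | step (k : Bool) (U M : Finset P) : (∀ N, Least (Cut.wt ω k) U N ↔ N = M) → Lin ω M → Lin ω U
  | small (k : Bool) (U : Finset P) (L : Finset (Finset P)) :
      (∀ N, N ∈ L ↔ Least (Cut.wt ω k) U N) → (∀ N ∈ L, N.card ≤ 2) →
      ∑ N ∈ L, sgn ω k U N ≠ 0 → Lin ω U

include hQ in
theorem Lin.exists_word {ω : P → ℕ} (hω : Function.Injective ω) {U : Finset P}
    (h : Lin ω U) : ∃ (l : List (Bool × ℚ)) (c : Bool) (t : ℚ), lin ω l c t U ≠ 0 := by
  classical
  induction h with
  | one k U z hz hc hzU hzD => exact ⟨[], !k, 1, lin_one hω k hz hc hzU hzD⟩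
  | step k U M hM _ ih =>
    obtain ⟨l, c, t, hl⟩ := ih
    have hinj : Function.Injective (Cut.wt ω k) := wt_inj hω k
    have hML := (hM M).mpr rfl
    have hMU := hML.1.1
    have h1 : ∑ N ∈ U.powerset with N.card = M.card,
        SM (Cut.wt ω k) U N * lin ω l c t N ≠ 0 := by
      rw [Finset.sum_eq_single M]
      · apply mul_ne_zero _ hl
        rw [SM_one hinj hMU (fun x hx hxM => (hML.1.2 x hx hxM).1)
          (fun x hx hxM => (hML.1.2 x hx hxM).2)]
        exact pow_ne_zero _ (by norm_num)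
      · intro N hN hNM
        rw [Finset.mem_filter, Finset.mem_powerset] at hN
        by_contra h2
        apply hNM
        rw [← hM]
        refine ⟨core_of_SM hinj hN.1 (left_ne_zero_of_mul h2),
          cnn_of_lin hQ hω (right_ne_zero_of_mul h2), fun N' h3 h4 => ?_⟩
        rw [hN.2]
        exact hML.2.2 N' h3 h4
      · intro h2
        exact absurd (by rw [Finset.mem_filter, Finset.mem_powerset]; exact ⟨hMU, rfl⟩) h2
    obtain ⟨y, hy⟩ := exists_value hQ k l c t (Finset.card_le_card hMU) h1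
    exact ⟨(k, y) :: l, c, t, hy⟩
  | small k U L hL h2 hsum =>
    have hinj : Function.Injective (Cut.wt ω k) := wt_inj hω k
    have hne : L.Nonempty := by
      rw [Finset.nonempty_iff_ne_empty]
      rintro rfl
      exact hsum Finset.sum_empty
    obtain ⟨M, hM⟩ := hne
    have hML := (hL M).mp hM
    have h1 : ∑ N ∈ U.powerset with N.card = M.card,
        SM (Cut.wt ω k) U N * lin ω [] false 1 N = ((∑ N ∈ L, sgn ω k U N : ℤ) : ℚ) := by
      have hLs : L ⊆ U.powerset.filter (fun N => N.card = M.card) := by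
        intro N hN
        have h3 := (hL N).mp hN
        rw [Finset.mem_filter, Finset.mem_powerset]
        exact ⟨h3.1.1, le_antisymm (h3.2.2 M hML.1 hML.2.1) (hML.2.2 N h3.1 h3.2.1)⟩
      rw [← Finset.sum_subset hLs, Int.cast_sum]
      · apply Finset.sum_congr rfl
        intro N hN
        have h3 := (hL N).mp hN
        rw [SM_one hinj h3.1.1 (fun x hx hxM => (h3.1.2 x hx hxM).1)
          (fun x hx hxM => (h3.1.2 x hx hxM).2), lin_small hω h3.2.1 (h2 N hN), sgn]
        push_cast
        rfl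
      · intro N hN hNL
        rw [Finset.mem_filter, Finset.mem_powerset] at hN
        by_contra h4
        apply hNL
        rw [hL]
        refine ⟨core_of_SM hinj hN.1 (left_ne_zero_of_mul h4),
          cnn_of_lin hQ hω (right_ne_zero_of_mul h4), fun N' h3 h5 => ?_⟩
        rw [hN.2]
        exact hML.2.2 N' h3 h5
    obtain ⟨y, hy⟩ := exists_value hQ (ω := ω) k [] false 1 (Finset.card_le_card hML.1.1)
      (by rw [h1]; exact Int.cast_ne_zero.mpr hsum)
    exact ⟨[(k, y)], false, 1, hy⟩

/-- a set with a nonzero linear term has an irreducible generating function -/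
theorem Lin.irreducible {ω : P → ℕ} (hω : Function.Injective ω) {U : Finset P}
    (h : Lin ω U) : Irreducible (GamQ hQ ω U) := by
  obtain ⟨l, c, t, h1⟩ := h.exists_word hQ hω
  obtain ⟨x, hx⟩ := (cnn_of_lin hQ hω h1).1
  apply irreducible_of_word hQ x ⟨x, hx⟩ (B := ℚ) l c t
  have h2 := evW_Gam hQ hω x l c t U
  rw [evW, Wd] at h2
  rw [h2]
  exact h1

end Pool.Agent.Lib.MP_5bc52d_co.LinTerm
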