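import Mathlib
import Pool.Agent.Lib.MP_5bc52d_co.LinTerm.Value

/-!
# The square of the ideal of elements without constant term
-/

open Finset Polynomial

set_option linter.unusedSectionVars false

namespace Pool.Agent.Lib.MP_5bc52d_co.LinTerm

open Pool.Agent.Lib.MP_5bc52d_co.Key Pool.Agent.Lib.MP_5bc52d_co.Cut

variable {P : Type*} [Fintype P] [DecidableEq P] [PartialOrder P]
variable {Q : Subring R} (hQ : ∀ F : R, F ∈ Q ↔ IsQS F)

/-- If the generating function is not a sum of products of two elements without constant term,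
then it is irreducible. -/
theorem irreducible_of_notMem_sq (ω : P → ℕ) {U : Finset P} (hU : U.Nonempty)
    (h : GamQ hQ ω U ∉ (RingHom.ker (cc Q)) ^ 2) : Irreducible (GamQ hQ ω U) := by
  have hD : IsDomain R := NoZeroDivisors.to_isDomain R
  have hDQ : IsDomain Q := inferInstance
  refine ⟨fun hu => ?_, fun {f g} hfg => ?_⟩
  · have h1 := isUnit_mem_homQ hQ hu
    have h2 := homQ_unique (GamQ_ne_zero hQ ω U) h1 (GamQ_homQ hQ ω U)
    have h3 := Finset.card_pos.mpr hU
    omega
  · by_contra hcon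
    rw [not_or] at hcon
    have h0 : f * g ≠ 0 := hfg ▸ GamQ_ne_zero hQ ω U
    obtain ⟨a, b, -, hf, hg⟩ := homQ_factor hQ h0 (hfg ▸ GamQ_homQ hQ ω U)
    have hz : ∀ {k : Q} {d : ℕ}, k ∈ homQ Q d → ¬ IsUnit k → k ≠ 0 → k ∈ RingHom.ker (cc Q) := by
      intro k d hk hu hk0
      rw [RingHom.mem_ker]
      apply cc_homQ hk
      rintro rfl
      exact hu (isUnit_of_homQ_zero hQ hk hk0)
    apply h
    rw [hfg, pow_two]
    exact Ideal.mul_mem_mul (hz hf hcon.1 (left_ne_zero_of_mul h0))
      (hz hg hcon.2 (right_ne_zero_of_mul h0))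

end Pool.Agent.Lib.MP_5bc52d_co.LinTerm
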