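import Mathlib
import Pool.Agent.Lib.MP_5bc52d_co.LinTerm.Sq
import Pool.Agent.Lib.MP_5bc52d_co.Cyc.Wt

/-!
# Functionals which vanish on the square of the ideal of elements without constant term
-/

open Finset Polynomial

set_option linter.unusedSectionVars false

namespace Pool.Agent.Lib.MP_5bc52d_co.LinTerm

open Pool.Agent.Lib.MP_5bc52d_co.Key Pool.Agent.Lib.MP_5bc52d_co.Cut
  Pool.Agent.Lib.MP_5bc52d_co.Tree

variable {P : Type*} [Fintype P] [DecidableEq P] [PartialOrder P]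
variable {Q : Subring R} (hQ : ∀ F : R, F ∈ Q ↔ IsQS F)

/-- an additive functional which vanishes on the products of elements without constant term -/
theorem functional_sq (φ : Q →+ ℚ) (hφ : ∀ a b : Q, cc Q a = 0 → cc Q b = 0 → φ (a * b) = 0)
    {f : Q} (hf : f ∈ (RingHom.ker (cc Q)) ^ 2) : φ f = 0 := by
  rw [pow_two] at hf
  refine Submodule.mul_induction_on hf ?_ ?_
  · intro a ha b hb
    exact hφ a b ((RingHom.mem_ker).mp ha) ((RingHom.mem_ker).mp hb)
  · intro a b ha hb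
    rw [map_add, ha, hb, add_zero]

theorem Lin.notMem_sq {ω : P → ℕ} (hω : Function.Injective ω) {U : Finset P}
    (h : Lin ω U) : GamQ hQ ω U ∉ (RingHom.ker (cc Q)) ^ 2 := by
  intro hsq
  obtain ⟨l, c, t, h1⟩ := h.exists_word hQ hω
  obtain ⟨x, hx⟩ := (cnn_of_lin hQ hω h1).1
  apply h1
  have h2 := evW_Gam hQ hω x l c t U
  rw [evW, Wd] at h2
  rw [lin, Wd, ← h2]
  have h3 := functional_sq
    (((Polynomial.lcoeff ℚ 1).toAddMonoidHom).comp
      ((evL ((C : ℚ →+* ℚ[X]).comp ((algebraMap ℚ ℚ).comp (cc Q))) (lo hQ)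
      (l.map (fun q => (q.1, (C q.2 : ℚ[X]))) ++ ([(!c, C t), (c, X - C t)] ++
        (mir l).map (fun q => (q.1, (C q.2 : ℚ[X])))) )) : Q →+* ℚ[X]).toAddMonoidHom)
    (fun a b ha hb => by
      have hz : ∀ {k : Q}, cc Q k = 0 → ((algebraMap ℚ ℚ).comp (cc Q)) k = 0 := by
        intro k hk
        rw [RingHom.comp_apply, hk, map_zero]
      exact evL_mul_coeff_one (lo_inv hQ) l c t (hz ha) (hz hb)) hsq
  exact h3

include hQ in
theorem sq_of_functional (η : R →+ ℚ)
    (hη : ∀ A B : R, IsQS A → IsQS B → MvPowerSeries.coeff 0 A = 0 →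
      MvPowerSeries.coeff 0 B = 0 → η (A * B) = 0) {G : Q} (hG : η (G : R) ≠ 0) :
    G ∉ (RingHom.ker (cc Q)) ^ 2 := by
  intro hsq
  apply hG
  have h3 := functional_sq (η.comp Q.subtype.toAddMonoidHom) (fun a b ha hb => by
    rw [cc_apply] at ha hb
    exact hη _ _ ((hQ _).mp a.2) ((hQ _).mp b.2) ha hb) hsq
  exact h3

end Pool.Agent.Lib.MP_5bc52d_co.LinTerm
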