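import Mathlib
import Pool.Agent.Lib.MP_5bc52d_co.LinTerm.Word

/-!
# Derivations given by words, and sums of products with prescribed degrees
-/

open Finset Polynomial

set_option linter.unusedSectionVars false

namespace Pool.Agent.Lib.MP_5bc52d_co.LinTerm

open Pool.Agent.Lib.MP_5bc52d_co.Key Pool.Agent.Lib.MP_5bc52d_co.Cut
  Pool.Agent.Lib.MP_5bc52d_co.Tree Pool.Agent.Lib.MP_5bc52d_co.Cyc

namespace Dec

section comp
variable {Q : Subring R} (hQ : ∀ F : R, F ∈ Q ↔ IsQS F)

theorem deg_mapDomain (m : ℕ →₀ ℕ) {g : ℕ → ℕ} (hg : StrictMono g) :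
    deg (Finsupp.mapDomain g m) = deg m := by
  rw [deg, deg, Finsupp.sum_mapDomain_index_inj hg.injective]

theorem hc_isQS {F : R} (hF : IsQS F) (d : ℕ) : IsQS (hc d F) := by
  obtain ⟨⟨N, hN⟩, hg⟩ := hF
  refine ⟨⟨N, fun m hm => ?_⟩, fun m g hgm => ?_⟩
  · rw [coeff_hc]
    split_ifs
    · exact hN m hm
    · rfl
  · rw [coeff_hc, coeff_hc, hg m g hgm, deg_mapDomain m hgm]

/-- the homogeneous component of degree `d` -/
noncomputable def hp (d : ℕ) : Q →+ Q where
  toFun f := ⟨hc d (f : R), (hQ _).mpr (hc_isQS ((hQ _).mp f.2) d)⟩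
  map_zero' := by
    apply Subtype.ext
    change hc d (0 : R) = 0
    ext m
    rw [coeff_hc]
    simp
  map_add' f g := by
    apply Subtype.ext
    change hc d ((f : R) + (g : R)) = hc d (f : R) + hc d (g : R)
    ext m
    rw [map_add, coeff_hc, coeff_hc, coeff_hc, map_add]
    split_ifs
    · rfl
    · rw [add_zero]

theorem hp_mem (d : ℕ) (f : Q) : hp hQ d f ∈ homQ Q d := by
  intro m hm
  change MvPowerSeries.coeff m (hc d (f : R)) = 0
  rw [coeff_hc, if_neg hm]

theorem hp_of_mem {d e : ℕ} {f : Q} (hf : f ∈ homQ Q e) :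
    hp hQ d f = if e = d then f else 0 := by
  apply Subtype.ext
  change hc d (f : R) = _
  split_ifs with h
  · ext m
    rw [coeff_hc]
    split_ifs with h1
    · rfl
    · rw [hf m (by rw [h]; exact h1)]
  · exact hc_of_mem_homQ hf (fun h' => h h'.symm)

theorem hp_mul {a : ℕ} {x : Q} (hx : x ∈ homQ Q a) (z : Q) (m : ℕ) :
    hp hQ m (x * z) = if a ≤ m then x * hp hQ (m - a) z else 0 := by
  have h1 : (hp hQ m (x * z) : R) = ∑ p ∈ antidiagonal m, hc p.1 (x : R) * hc p.2 (z : R) := by
    change hc m ((x : R) * (z : R)) = _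
    exact hc_mul m _ _
  have hx' : hc a (x : R) = (x : R) := by
    have := hp_of_mem hQ (d := a) hx
    rw [if_pos rfl] at this
    exact congrArg Subtype.val this
  apply Subtype.ext
  rw [h1]
  split_ifs with h
  · rw [Finset.sum_eq_single (a, m - a)]
    · simp only [hx']
      rfl
    · intro p hp hne
      rw [HasAntidiagonal.mem_antidiagonal] at hp
      rw [hc_of_mem_homQ hx, zero_mul]
      intro h2
      exact hne (Prod.ext h2 (by simp only; omega))
    · intro h2
      exfalso
      apply h2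
      rw [HasAntidiagonal.mem_antidiagonal]
      simp only
      omega
  · apply Finset.sum_eq_zero
    intro p hp
    rw [HasAntidiagonal.mem_antidiagonal] at hp
    rw [hc_of_mem_homQ hx, zero_mul]
    omega

/-- constants -/
noncomputable def io : ℚ →+* Q :=
  (MvPowerSeries.C (σ := ℕ) (R := ℚ)).codRestrict Q (fun q => (hQ _).mpr (by
    refine ⟨⟨0, fun m hm => ?_⟩, fun m g hgm => ?_⟩
    · rw [MvPowerSeries.coeff_C, if_neg]
      rintro rfl
      simp at hm
    · rw [MvPowerSeries.coeff_C, MvPowerSeries.coeff_C]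
      have h1 : Finsupp.mapDomain g m = 0 ↔ m = 0 := by
        constructor
        · intro h
          exact Finsupp.mapDomain_injective hgm.injective (by rw [h, Finsupp.mapDomain_zero])
        · rintro rfl
          exact Finsupp.mapDomain_zero
      simp only [h1]))

theorem io_mem (q : ℚ) : io hQ q ∈ homQ Q 0 := by
  intro m hm
  change MvPowerSeries.coeff m (MvPowerSeries.C (σ := ℕ) (R := ℚ) q) = 0
  rw [MvPowerSeries.coeff_C, if_neg]
  rintro rfl
  exact hm deg_zero

end comp

section comb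
variable {P : Type*} [Fintype P] [DecidableEq P] {B : Type*} [CommRing B]

theorem sum_wks_dn {r : P → P → Prop} {M : Type*} [AddCommMonoid M] (w : P → ℤ) (U : Finset P)
    (f : Finset P → Finset P → M) :
    ∑ I ∈ wks r w U, ∑ J ∈ dn r (U \ I), f I J =
      ∑ K ∈ dn r U, ∑ I ∈ wks r w K, f I (K \ I) := by
  rw [Finset.sum_sigma', Finset.sum_sigma']
  have h3 : ∀ I J : Finset P, J ⊆ U \ I → (I ∪ J) \ I = J := by
    intro I J hJ
    ext x
    simp only [Finset.mem_sdiff, Finset.mem_union]
    constructor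
    · rintro ⟨h | h, h'⟩
      · exact absurd h h'
      · exact h
    · intro h
      exact ⟨Or.inr h, (Finset.mem_sdiff.mp (hJ h)).2⟩
  refine Finset.sum_bij' (fun p _ => ⟨p.1 ∪ p.2, p.1⟩) (fun p _ => ⟨p.2, p.1 \ p.2⟩)
    ?_ ?_ ?_ ?_ ?_
  · rintro ⟨I, J⟩ hp
    rw [Finset.mem_sigma, mem_wks, mem_dn] at hp
    obtain ⟨hI, hJ⟩ := hp
    rw [Finset.mem_sigma, mem_dn, mem_wks]
    refine ⟨⟨Finset.union_subset hI.1 (hJ.1.trans Finset.sdiff_subset),
      fun a ha b hb hab => ?_⟩, Finset.subset_union_left, fun a ha b hb hab => ?_⟩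
    · rcases Finset.mem_union.mp hb with h | h
      · exact Finset.mem_union_left _ (hI.2 a ha b h hab).1
      · by_cases haI : a ∈ I
        · exact Finset.mem_union_left _ haI
        · exact Finset.mem_union_right _ (hJ.2 a (Finset.mem_sdiff.mpr ⟨ha, haI⟩) b h hab)
    · refine hI.2 a ?_ b hb hab
      rcases Finset.mem_union.mp ha with h | h
      · exact hI.1 h
      · exact (Finset.mem_sdiff.mp (hJ.1 h)).1
  · rintro ⟨I, J⟩ hp
    rw [Finset.mem_sigma, mem_dn, mem_wks] at hp
    obtain ⟨hI, hJ⟩ := hp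
    rw [Finset.mem_sigma, mem_wks, mem_dn]
    refine ⟨⟨hJ.1.trans hI.1, fun a ha b hb hab => ?_⟩, ?_, fun a ha b hb hab => ?_⟩
    · exact hJ.2 a (hI.2 a ha b (hJ.1 hb) hab) b hb hab
    · exact Finset.sdiff_subset_sdiff hI.1 (Finset.Subset.refl _)
    · rw [Finset.mem_sdiff] at ha hb ⊢
      exact ⟨hI.2 a ha.1 b hb.1 hab, ha.2⟩
  · rintro ⟨I, J⟩ hp
    rw [Finset.mem_sigma, mem_wks, mem_dn] at hp
    obtain ⟨hI, hJ⟩ := hp
    simp only [h3 I J hJ.1]
  · rintro ⟨I, J⟩ hp
    rw [Finset.mem_sigma, mem_dn, mem_wks] at hp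
    obtain ⟨hI, hJ⟩ := hp
    simp only [Finset.union_sdiff_of_subset hJ.1]
  · rintro ⟨I, J⟩ hp
    rw [Finset.mem_sigma, mem_wks, mem_dn] at hp
    obtain ⟨hI, hJ⟩ := hp
    simp only [h3 I J hJ.1]

/-- change of the ring of letter values -/
theorem NL_map {B' : Type*} [CommRing B'] {r : P → P → Prop} {v : Bool → P → ℤ} (π : B →+* B')
    (l : List (Bool × B)) : ∀ U : Finset P,
      NL r v (l.map (fun q => (q.1, π q.2))) U = π (NL r v l U) := by
  induction l with
  | nil =>
    intro U
    rw [List.map_nil, NL, NL]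
    split_ifs
    · rw [map_one]
    · rw [map_zero]
  | cons q l ih =>
    intro U
    rw [List.map_cons, NL, NL, map_sum]
    apply Finset.sum_congr rfl
    intro I _
    rw [ih, map_mul, map_pow]

/-- reading a word from the end -/
theorem NL_reverse {r : P → P → Prop} {v : Bool → P → ℤ} (hv : ∀ c p, v (!c) p = - v c p)
    (l : List (Bool × B)) : ∀ U : Finset P,
      NL (fun a b => r b a) (fun c => v (!c)) l.reverse U = NL r v l U := by
  induction l using List.reverseRecOn with
  | nil =>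
    intro U
    rw [List.reverse_nil, NL, NL]
  | append_singleton l q ih =>
    intro U
    obtain ⟨c, z⟩ := q
    rw [List.reverse_append, List.reverse_singleton, List.singleton_append, NL]
    have h1 := NL_last (r := r) hv l (!c) z U
    rw [Bool.not_not] at h1
    rw [h1]
    apply Finset.sum_congr rfl
    intro F _
    rw [ih]

end comb

section deriv
variable {P : Type*} [Fintype P] [DecidableEq P] [PartialOrder P]
variable {Q : Subring R} (hQ : ∀ F : R, F ∈ Q ↔ IsQS F)

/-- the value of the generating function of `U` when a word is read off and the rest is kept -/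
theorem evLC_Gam {F : Bool → Q →+* Q[X]} {Γ : Finset P → Q} {s : Bool → Q}
    {r : P → P → Prop} {v : Bool → P → ℤ} (hs1 : s true = 1) (hs2 : s false = -1)
    (hF : ∀ c, PeelE Γ (s c) r (v c) (F c)) (l : List (Bool × Q[X])) :
    ∀ U : Finset P, evL ((C : Q →+* Q[X]).comp (RingHom.id Q)) F l (Γ U) =
      ∑ I ∈ dn r U, NL r v l I * C (Γ (U \ I)) := by
  induction l with
  | nil =>
    intro U
    rw [Finset.sum_eq_single ∅]
    · rw [NL_empty, one_mul, Finset.sdiff_empty]
      rfl
    · intro I _ hne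
      rw [NL, if_neg hne, zero_mul]
    · intro h
      exact absurd (mem_dn.mpr ⟨Finset.empty_subset _,
        fun a _ b hb => absurd hb (Finset.notMem_empty b)⟩) h
  | cons q l ih =>
    intro U
    rw [evL_cons, RingHom.comp_apply, hF q.1 U, map_sum]
    have h0 : ∀ I ∈ wks r (v q.1) U,
        (Polynomial.eval₂RingHom (evL ((C : Q →+* Q[X]).comp (RingHom.id Q)) F l)
          ((if q.1 = true then 1 else -1) * q.2))
            (C (s q.1 ^ I.card * Γ (U \ I)) * X ^ I.card) =
        ∑ J ∈ dn r (U \ I), q.2 ^ I.card * NL r v l J * C (Γ (U \ (I ∪ J))) := by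
      intro I _
      rw [coe_eval₂RingHom, eval₂_mul, eval₂_C, eval₂_pow, eval₂_X, map_mul, map_pow, ih]
      have h1 : (evL ((C : Q →+* Q[X]).comp (RingHom.id Q)) F l) (s q.1) =
          if q.1 = true then 1 else -1 := by
        rcases q with ⟨c, z⟩
        cases c
        · simp [hs2]
        · simp [hs1]
      rw [h1]
      have h2 : ((if q.1 = true then 1 else -1 : Q[X])) * (if q.1 = true then 1 else -1 : Q[X]) =
          1 := by
        split_ifs <;> ring
      calc ((if q.1 = true then 1 else -1 : Q[X])) ^ I.card *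
            (∑ J ∈ dn r (U \ I), NL r v l J * C (Γ ((U \ I) \ J))) *
            ((if q.1 = true then 1 else -1 : Q[X]) * q.2) ^ I.card
          = (((if q.1 = true then 1 else -1 : Q[X])) *
              (if q.1 = true then 1 else -1 : Q[X])) ^ I.card *
            (q.2 ^ I.card * ∑ J ∈ dn r (U \ I), NL r v l J * C (Γ ((U \ I) \ J))) := by
              rw [mul_pow, mul_pow]; ring
        _ = ∑ J ∈ dn r (U \ I), q.2 ^ I.card * NL r v l J * C (Γ (U \ (I ∪ J))) := by
              rw [h2, one_pow, one_mul, Finset.mul_sum]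
              apply Finset.sum_congr rfl
              intro J _
              rw [sdiff_sdiff_left, Finset.sup_eq_union, mul_assoc]
    rw [Finset.sum_congr rfl h0,
      sum_wks_dn (v q.1) U (fun I J => q.2 ^ I.card * NL r v l J * C (Γ (U \ (I ∪ J))))]
    apply Finset.sum_congr rfl
    intro K _
    rw [NL, Finset.sum_mul]
    apply Finset.sum_congr rfl
    intro I hI
    rw [Finset.union_sdiff_of_subset (mem_wks.mp hI).1]

/-- the letters of a word as polynomials over `Q` -/
noncomputable def up (W : List (Bool × ℚ[X])) : List (Bool × Q[X]) :=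
  W.map (fun q => (q.1, Polynomial.mapRingHom (io hQ) q.2))

/-- the operator given by a word: the linear term when the word is read off -/
noncomputable def dv (F : Bool → Q →+* Q[X]) (W : List (Bool × ℚ[X])) : Q →+ Q :=
  (Polynomial.lcoeff Q 1).toAddMonoidHom.comp
    (evL ((C : Q →+* Q[X]).comp (RingHom.id Q)) F (up hQ W)).toAddMonoidHom

theorem dv_apply (F : Bool → Q →+* Q[X]) (W : List (Bool × ℚ[X])) (f : Q) :
    dv hQ F W f = (evL ((C : Q →+* Q[X]).comp (RingHom.id Q)) F (up hQ W) f).coeff 1 := rfl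

/-- the word cancels at `X = 0` -/
def Triv (F : Bool → Q →+* Q[X]) (W : List (Bool × ℚ[X])) : Prop :=
  evL (RingHom.id Q) F (W.map (fun q => (q.1, io hQ (q.2.coeff 0)))) = RingHom.id Q

theorem coeff_zero_of_triv {F : Bool → Q →+* Q[X]} {W : List (Bool × ℚ[X])}
    (hW : Triv hQ F W) (f : Q) :
    (evL ((C : Q →+* Q[X]).comp (RingHom.id Q)) F (up hQ W) f).coeff 0 = f := by
  have h1 := congrArg (fun χ : Q →+* Q => χ f) (evL_map ((C : Q →+* Q[X]).comp (RingHom.id Q)) F
    (constantCoeff : Q[X] →+* Q) (up hQ W))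
  simp only [RingHom.comp_apply] at h1
  have h0 : (constantCoeff : Q[X] →+* Q).comp ((C : Q →+* Q[X]).comp (RingHom.id Q)) =
      RingHom.id Q := by
    apply RingHom.ext
    intro a
    simp
  have h2 : (up hQ W).map (fun q => (q.1, (constantCoeff : Q[X] →+* Q) q.2)) =
      W.map (fun q => (q.1, io hQ (q.2.coeff 0))) := by
    rw [up, List.map_map]
    apply List.map_congr_left
    intro q _
    simp
  rw [h0, h2, hW] at h1
  rw [← constantCoeff_apply, h1]
  rfl

theorem dv_mul {F : Bool → Q →+* Q[X]} {W : List (Bool × ℚ[X])} (hW : Triv hQ F W) (f g : Q) :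
    dv hQ F W (f * g) = f * dv hQ F W g + g * dv hQ F W f := by
  rw [dv_apply, dv_apply, dv_apply, map_mul, mul_coeff_one, coeff_zero_of_triv hQ hW,
    coeff_zero_of_triv hQ hW]
  ring

theorem hi_inv : InvF (hi hQ) := by
  intro c f
  cases c
  · exact (top hQ).Ehat_N f
  · exact (top hQ).Nhat_E f

theorem triv_lo (l : List (Bool × ℚ)) (c : Bool) (t : ℚ) : Triv hQ (lo hQ) (Wd l c t) := by
  have h2 : (Wd l c t).map (fun q => (q.1, io hQ (q.2.coeff 0))) =
      (l.map (fun q => (q.1, io hQ q.2))) ++ ((!c, io hQ t) :: (!!c, -(io hQ t)) ::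
        mir (l.map (fun q => (q.1, io hQ q.2)))) := by
    simp [Wd, mir, List.map_append, List.map_reverse, Function.comp_def]
  rw [Triv, h2, evL_append_congr _ (evL_cancel (lo_inv hQ) (!c) (io hQ t) _)]
  have h3 := evL_mir (cc := RingHom.id Q) (lo_inv hQ) (l.map (fun q => (q.1, io hQ q.2))) []
  rw [List.append_nil] at h3
  exact h3

theorem triv_hi (l : List (Bool × ℚ)) (c : Bool) (t : ℚ) :
    Triv hQ (hi hQ) (Wd l c t).reverse := by
  have h2 : ((Wd l c t).reverse).map (fun q => (q.1, io hQ (q.2.coeff 0))) =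
      (l.map (fun q => (!q.1, -(io hQ q.2)))) ++ ((c, -(io hQ t)) :: (!c, -(-(io hQ t))) ::
        mir (l.map (fun q => (!q.1, -(io hQ q.2))))) := by
    simp [Wd, mir, List.map_append, List.map_reverse, Function.comp_def]
  rw [Triv, h2, evL_append_congr _ (evL_cancel (hi_inv hQ) c (-(io hQ t)) _)]
  have h3 := evL_mir (cc := RingHom.id Q) (hi_inv hQ) (l.map (fun q => (!q.1, -(io hQ q.2)))) []
  rw [List.append_nil] at h3
  exact h3

/-- the left derivation -/
theorem dv_lo_Gam {ω : P → ℕ} (hω : Function.Injective ω) (l : List (Bool × ℚ)) (c : Bool)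
    (t : ℚ) (U : Finset P) : dv hQ (lo hQ) (Wd l c t) (GamQ hQ ω U) =
      ∑ I ∈ dn (fun a b : P => a < b) U, io hQ (lin ω l c t I) * GamQ hQ ω (U \ I) := by
  rw [dv_apply, evLC_Gam (s := sg Q) rfl rfl (peelE_lo hQ hω), Polynomial.finsetSum_coeff]
  apply Finset.sum_congr rfl
  intro I _
  rw [coeff_mul_C, up, NL_map, coe_mapRingHom, coeff_map, lin]

/-- the right derivation -/
theorem dv_hi_Gam {ω : P → ℕ} (hω : Function.Injective ω) (l : List (Bool × ℚ)) (c : Bool)
    (t : ℚ) (U : Finset P) : dv hQ (hi hQ) (Wd l c t).reverse (GamQ hQ ω U) =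
      ∑ I ∈ dn (fun a b : P => b < a) U, io hQ (lin ω l c t I) * GamQ hQ ω (U \ I) := by
  have hv : ∀ c p, Cut.wt ω (!c) p = - Cut.wt ω c p := fun c p => by rw [wt_not]; rfl
  rw [dv_apply, evLC_Gam (s := sg Q) (v := fun c => Cut.wt ω (!c)) rfl rfl (peelE_hi hQ hω),
    Polynomial.finsetSum_coeff]
  apply Finset.sum_congr rfl
  intro I _
  have h1 : up hQ (Wd l c t).reverse = (up hQ (Wd l c t)).reverse := by
    rw [up, up, List.map_reverse]
  have h2 := NL_reverse (r := fun a b : P => a < b) hv (up hQ (Wd l c t)) I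
  rw [coeff_mul_C, h1, h2, up, NL_map, coe_mapRingHom, coeff_map, lin]

end deriv

end Dec

end Pool.Agent.Lib.MP_5bc52d_co.LinTerm
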