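import Mathlib
import Pool.Agent.Lib.MP_5bc52d_co.LinTerm.Word
import Pool.Agent.Lib.MP_5bc52d_co.Height2.Pair

/-!
# Sets without chains of three elements whose local maxima are all on one side

`U` is a connected set without chains of three elements. If all local maxima of the signed labels
(the elements of `U` which are comparable in `U` only to elements with smaller signed labels) are
tops of `U`, or if none of them is, then the linear term of `U` is not zero.
-/

open Finset Polynomial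

set_option linter.unusedSectionVars false

namespace Pool.Agent.Lib.MP_5bc52d_co.LinTerm

open Pool.Agent.Lib.MP_5bc52d_co.Key Pool.Agent.Lib.MP_5bc52d_co.Cut
  Pool.Agent.Lib.MP_5bc52d_co.Tree

namespace OneSide

variable {P : Type*} [Fintype P] [DecidableEq P] [PartialOrder P]

/-- the order relation -/
abbrev rl : P → P → Prop := fun a b => a < b

open Classical in
/-- the tops of `U`: the elements with an element of `U` below -/
noncomputable def Tp (U : Finset P) : Finset P := U.filter (fun x => ∃ a ∈ U, a < x)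

theorem mem_Tp {U : Finset P} {x : P} : x ∈ Tp U ↔ x ∈ U ∧ ∃ a ∈ U, a < x := by
  classical
  rw [Tp, Finset.mem_filter]

/-- the local maxima of `w` -/
noncomputable def Mx (w : P → ℤ) (U : Finset P) : Finset P := Src (rl (P := P)) (-w) U

theorem mem_Mx {w : P → ℤ} {U : Finset P} {x : P} :
    x ∈ Mx w U ↔ x ∈ U ∧ ∀ a ∈ U, (x < a ∨ a < x) → w a < w x := by
  rw [Mx, mem_Src]
  refine and_congr Iff.rfl ?_
  constructor
  · intro h a ha hxa
    have := h a ha hxa
    simp only [Pi.neg_apply] at this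
    omega
  · intro h a ha hxa
    have := h a ha hxa
    simp only [Pi.neg_apply]
    omega

theorem Mx_nonempty {w : P → ℤ} (hw : Function.Injective w) {U : Finset P} (hU : U.Nonempty) :
    (Mx w U).Nonempty := by
  obtain ⟨x, hx, hmax⟩ := U.exists_max_image w hU
  refine ⟨x, mem_Mx.mpr ⟨hx, fun a ha hxa => lt_of_le_of_ne (hmax a ha) (fun h => ?_)⟩⟩
  have h1 := hw h
  rcases hxa with h2 | h2
  · exact h2.ne' h1
  · exact h2.ne h1

variable {U₀ : Finset P} (hU₀ : Low (rl (P := P)) U₀)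
include hU₀

theorem NT_eq {w : P → ℤ} {N : Finset P} (hN : N ⊆ U₀) :
    NT (rl (P := P)) (-w) N = (Tp U₀ ∩ N) \ Mx w N := by
  ext x
  rw [mem_NT, Finset.mem_sdiff, Finset.mem_inter, mem_Tp, Mx]
  constructor
  · rintro ⟨hx, h1, a, ha, hax⟩
    exact ⟨⟨⟨hN hx, a, hN ha, hax⟩, hx⟩, h1⟩
  · rintro ⟨⟨⟨hx0, a, ha, hax⟩, hx⟩, h1⟩
    refine ⟨hx, h1, ?_⟩
    rw [mem_Src, not_and] at h1
    have h2 := h1 hx
    push Not at h2
    obtain ⟨b, hb, hxb, -⟩ := h2
    rcases hxb with h3 | h3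
    · exact absurd h3 (hU₀ a ha x hx0 b (hN hb) hax)
    · exact ⟨b, hb, h3⟩

theorem NB_card {w : P → ℤ} {N : Finset P} (hN : N ⊆ U₀) :
    (NBt (rl (P := P)) (-w) N).card + (NT (rl (P := P)) (-w) N).card + (Mx w N).card = N.card := by
  classical
  have h1 : Disjoint (NBt (rl (P := P)) (-w) N) (NT (rl (P := P)) (-w) N) := by
    rw [Finset.disjoint_left]
    intro x hx hx'
    obtain ⟨hxN, -, a, ha, hxa⟩ := mem_NBt.mp hx
    obtain ⟨-, -, b, hb, hbx⟩ := mem_NT.mp hx'
    exact hU₀ b (hN hb) x (hN hxN) a (hN ha) hbx hxa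
  have h2 : Disjoint (NBt (rl (P := P)) (-w) N ∪ NT (rl (P := P)) (-w) N) (Mx w N) := by
    rw [Finset.disjoint_left]
    intro x hx hx'
    rcases Finset.mem_union.mp hx with h | h
    · exact (mem_NBt.mp h).2.1 hx'
    · exact (mem_NT.mp h).2.1 hx'
  rw [← Finset.card_union_of_disjoint h1, ← Finset.card_union_of_disjoint h2]
  congr 1
  ext x
  rw [Finset.mem_union, Finset.mem_union, mem_NBt, mem_NT]
  constructor
  · rintro ((h | h) | h)
    · exact h.1
    · exact h.1
    · exact (mem_Mx.mp h).1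
  · intro hx
    by_cases h : x ∈ Mx w N
    · exact Or.inr h
    · left
      have h3 := h
      rw [Mx, mem_Src, not_and] at h3
      have h4 := h3 hx
      push Not at h4
      obtain ⟨b, hb, hxb, -⟩ := h4
      rcases hxb with h5 | h5
      · exact Or.inl ⟨hx, h, b, hb, h5⟩
      · exact Or.inr ⟨hx, h, b, hb, h5⟩

/-- the value on the two letters in the middle -/
theorem lin_nil {ω : P → ℕ} (hω : Function.Injective ω) (k : Bool) (t : ℚ) {N : Finset P}
    (hN : N ⊆ U₀) : lin ω [] (!k) t N =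
      if (Mx (Cut.wt ω k) N).card = 1 then
        (-1) ^ ((Tp U₀ ∩ N) \ Mx (Cut.wt ω k) N).card * t ^ (N.card - 1) else 0 := by
  have hinj := wt_inj hω k
  have hv : ∀ c p, Cut.wt ω (!c) p = - Cut.wt ω c p := fun c p => by rw [wt_not]; rfl
  have hw : Wd ([] : List (Bool × ℚ)) (!k) t = [(!(!k), C t), (!k, X - C t)] := by
    simp [Wd, Pool.Agent.Lib.MP_5bc52d_co.Key.mir]
  have hLN : Low (rl (P := P)) N := hU₀.mono hN
  have hk : Cut.wt ω (!k) = -(Cut.wt ω k) := wt_not ω k
  rw [lin, hw, NL_low (r := fun a b : P => a < b) (w := -(Cut.wt ω k)) hLN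
    (fun x y z h1 h2 => lt_trans h1 h2) hv (!k) hk]
  have h1 : (C t : ℚ[X]) + (X - C t) = X := by ring
  rw [h1]
  have h2 : (NBt (fun a b : P => a < b) (-(Cut.wt ω k)) N).card +
      (NT (fun a b : P => a < b) (-(Cut.wt ω k)) N).card + (Mx (Cut.wt ω k) N).card = N.card :=
    NB_card hU₀ hN
  have h3 : NT (fun a b : P => a < b) (-(Cut.wt ω k)) N =
      (Tp U₀ ∩ N) \ Mx (Cut.wt ω k) N := NT_eq hU₀ hN
  have hS : Src (fun a b : P => a < b) (-(Cut.wt ω k)) N = Mx (Cut.wt ω k) N := rfl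
  rw [hS]
  rcases N.eq_empty_or_nonempty with h0 | h0
  · subst h0
    have h4 : (Mx (Cut.wt ω k) (∅ : Finset P)) = ∅ := by
      ext x
      simp [mem_Mx]
    have h5 : NBt (fun a b : P => a < b) (-(Cut.wt ω k)) (∅ : Finset P) = ∅ := by
      ext x
      simp [mem_NBt]
    have h6 : NT (fun a b : P => a < b) (-(Cut.wt ω k)) (∅ : Finset P) = ∅ := by
      ext x
      simp [mem_NT]
    rw [h4, h5, h6]
    simp [Polynomial.coeff_one]
  · have hpos := Finset.card_pos.mpr (Mx_nonempty hinj h0)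
    split_ifs with hc
    · rw [hc, pow_one, coeff_mul_X, coeff_zero_eq_eval_zero, eval_mul, eval_pow, eval_pow,
        eval_sub, eval_X, eval_C, zero_sub, neg_pow, ← h3]
      have h7 : N.card - 1 = (NBt (fun a b : P => a < b) (-(Cut.wt ω k)) N).card +
          (NT (fun a b : P => a < b) (-(Cut.wt ω k)) N).card := by
        have h2' := h2
        rw [hc] at h2'
        omega
      rw [h7, pow_add]
      ring
    · obtain ⟨m, hm⟩ : ∃ m, (Mx (Cut.wt ω k) N).card = m + 2 :=
        ⟨(Mx (Cut.wt ω k) N).card - 2, by omega⟩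
      rw [hm, pow_add, ← mul_assoc]
      rw [show (2 : ℕ) = 1 + 1 from rfl, ← Nat.succ_eq_add_one 1, pow_succ X 1, ← mul_assoc,
        coeff_mul_X, coeff_zero_eq_eval_zero, eval_mul, pow_one, eval_X, mul_zero]

theorem covIn_of_lt {U : Finset P} (hU : U ⊆ U₀) {x y : P} (hx : x ∈ U) (hy : y ∈ U)
    (h : x < y) : CovIn U x y :=
  ⟨h, fun z hz hxz hzy => hU₀ x (hU hx) z (hU hz) y (hU hy) hxz hzy⟩

/-- the sign of a set -/
noncomputable def sg (U₀ N : Finset P) : ℚ := (-1) ^ (Tp U₀ ∩ N).card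

omit hU₀ in
theorem sg_sq (N : Finset P) : sg U₀ N * sg U₀ N = 1 := by
  rw [sg, ← mul_pow]
  norm_num

theorem SM_core {w : P → ℤ} (hw : Function.Injective w) {U M : Finset P} (hU : U ⊆ U₀)
    (hc : Core w U M) : SM w U M = sg U₀ U * sg U₀ M := by
  classical
  rw [SM_one hw hc.1 (fun x hx hxM => (hc.2 x hx hxM).1) (fun x hx hxM => (hc.2 x hx hxM).2)]
  have h1 : U.filter (fun x => x ∉ M ∧ DO w U M x) = (Tp U₀ ∩ U) \ (Tp U₀ ∩ M) := by
    ext x
    rw [Finset.mem_filter, Finset.mem_sdiff, Finset.mem_inter, Finset.mem_inter, not_and]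
    constructor
    · rintro ⟨hx, hxM, y, hy, hyx, -⟩
      exact ⟨⟨mem_Tp.mpr ⟨hU hx, y, hU hy, hyx.1⟩, hx⟩, fun _ => hxM⟩
    · rintro ⟨⟨hT, hx⟩, hxM⟩
      have hxM' := hxM hT
      refine ⟨hx, hxM', (hc.2 x hx hxM').1.resolve_left ?_⟩
      rintro ⟨y, hy, hxy, -⟩
      obtain ⟨-, a, ha, hax⟩ := mem_Tp.mp hT
      exact hU₀ a ha x (hU hx) y (hU hy) hax hxy.1
  have h2 : Tp U₀ ∩ M ⊆ Tp U₀ ∩ U := Finset.inter_subset_inter_left hc.1
  have h3 := Finset.card_sdiff_add_card_eq_card h2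
  rw [h1, sg, sg, ← h3, pow_add, mul_assoc, ← mul_pow]
  norm_num

theorem lin_step {ω : P → ℕ} (hω : Function.Injective ω) (k : Bool) (l : List (Bool × ℚ))
    (t : ℚ) {U : Finset P} (hU : U ⊆ U₀) [∀ M, Decidable (Core (Cut.wt ω k) U M)] :
    sg U₀ U * lin ω ((k, 1) :: l) (!k) t U =
      ∑ M ∈ U.powerset, if Core (Cut.wt ω k) U M then sg U₀ M * lin ω l (!k) t M else 0 := by
  have hinj := wt_inj hω k
  rw [lin_cons, Finset.mul_sum]
  apply Finset.sum_congr rfl
  intro M hM
  rw [one_pow, mul_one]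
  split_ifs with h
  · rw [SM_core hU₀ hinj hU h]
    have h1 := sg_sq (U₀ := U₀) U
    linear_combination (sg U₀ M * lin ω l (!k) t M) * h1
  · have h1 : SM (Cut.wt ω k) U M = 0 := by
      by_contra h2
      exact h (core_of_SM hinj (Finset.mem_powerset.mp hM) h2)
    rw [h1]
    ring

open Classical in
/-- the values as a polynomial in the letter in the middle -/
noncomputable def FF (w : P → ℤ) (U₀ : Finset P) : ℕ → Finset P → ℚ[X]
  | 0, N => if (Mx w N).card = 1 then C ((-1) ^ (Tp U₀ ∩ Mx w N).card) * X ^ (N.card - 1) else 0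
  | m + 1, N => ∑ M ∈ N.powerset, if Core w N M then FF w U₀ m M else 0

open Classical in
/-- the number of chains of cores which end in a set with `s` elements -/
noncomputable def ct (w : P → ℤ) (s : ℕ) : ℕ → Finset P → ℕ
  | 0, N => if (Mx w N).card = 1 ∧ N.card = s then 1 else 0
  | m + 1, N => ∑ M ∈ N.powerset, if Core w N M then ct w s m M else 0

theorem FF_eval {ω : P → ℕ} (hω : Function.Injective ω) (k : Bool) (t : ℚ) (m : ℕ)
    {N : Finset P} (hN : N ⊆ U₀) : (FF (Cut.wt ω k) U₀ m N).eval t =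
      sg U₀ N * lin ω (List.replicate m (k, 1)) (!k) t N := by
  classical
  induction m generalizing N with
  | zero =>
    rw [FF, List.replicate_zero, lin_nil hU₀ hω k t hN]
    split_ifs with h
    · rw [eval_mul, eval_C, eval_pow, eval_X, ← mul_assoc]
      congr 1
      have h1 : Tp U₀ ∩ Mx (Cut.wt ω k) N ⊆ Tp U₀ ∩ N :=
        Finset.inter_subset_inter_left (fun x hx => (mem_Mx.mp hx).1)
      have h2 := Finset.card_sdiff_add_card_eq_card h1
      have h3 : (Tp U₀ ∩ N) \ (Tp U₀ ∩ Mx (Cut.wt ω k) N) =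
          (Tp U₀ ∩ N) \ Mx (Cut.wt ω k) N := by
        ext x
        simp only [Finset.mem_sdiff, Finset.mem_inter, not_and]
        constructor
        · exact fun h => ⟨h.1, h.2 h.1.1⟩
        · exact fun h => ⟨h.1, fun _ => h.2⟩
      rw [h3] at h2
      rw [sg, ← h2, pow_add]
      have h4 : ((-1 : ℚ) ^ ((Tp U₀ ∩ N) \ Mx (Cut.wt ω k) N).card) *
          ((-1 : ℚ) ^ ((Tp U₀ ∩ N) \ Mx (Cut.wt ω k) N).card) = 1 := by
        rw [← mul_pow]
        norm_num
      linear_combination (-(-1 : ℚ) ^ (Tp U₀ ∩ Mx (Cut.wt ω k) N).card) * h4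
    · rw [eval_zero, mul_zero]
  | succ m ih =>
    rw [FF, List.replicate_succ, lin_step hU₀ hω k _ t hN, eval_finsetSum]
    apply Finset.sum_congr rfl
    intro M hM
    rw [Finset.mem_powerset] at hM
    split_ifs with h
    · exact ih (hM.trans hN)
    · exact eval_zero

omit hU₀ in
theorem FF_coeff {w : P → ℤ} {s : ℕ} {ε : ℚ}
    (hε : ∀ N ⊆ U₀, (Mx w N).card = 1 → N.card = s → (-1 : ℚ) ^ (Tp U₀ ∩ Mx w N).card = ε)
    (hs : 0 < s) (m : ℕ) {N : Finset P} (hN : N ⊆ U₀) :
    (FF w U₀ m N).coeff (s - 1) = ε * (ct w s m N : ℚ) := by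
  classical
  induction m generalizing N with
  | zero =>
    rw [FF, ct]
    by_cases h : (Mx w N).card = 1
    · rw [if_pos h, coeff_C_mul, coeff_X_pow]
      have h1 : 0 < N.card := by
        have h2 := Finset.card_le_card (show Mx w N ⊆ N from fun x hx => (mem_Mx.mp hx).1)
        omega
      by_cases h2 : N.card = s
      · rw [if_pos (by rw [h2]), if_pos ⟨h, h2⟩, hε N hN h h2]
        simp
      · rw [if_neg (by omega), if_neg (fun h3 => h2 h3.2)]
        simp
    · rw [if_neg h, if_neg (fun h3 => h h3.1)]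
      simp
  | succ m ih =>
    rw [FF, ct, finsetSum_coeff, Nat.cast_sum, Finset.mul_sum]
    apply Finset.sum_congr rfl
    intro M hM
    rw [Finset.mem_powerset] at hM
    split_ifs with h
    · exact ih (hM.trans hN)
    · simp

/-- one more step outwards -/
theorem exists_bigger {w : P → ℤ} (hC : Cnn U₀) {N : Finset P} (hN : N ⊆ U₀)
    (hN0 : N.Nonempty) (hne : N ≠ U₀) : ∃ N' ⊆ U₀, N.card < N'.card ∧ Core w N' N := by
  classical
  set N' := N ∪ U₀.filter (fun x => ∃ y ∈ N, x < y ∨ y < x) with hN'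
  have hsub : N' ⊆ U₀ := Finset.union_subset hN (Finset.filter_subset _ _)
  have hNN' : N ⊆ N' := Finset.subset_union_left
  have hT : (U₀ \ N).Nonempty := by
    rw [Finset.nonempty_iff_ne_empty]
    intro h
    exact hne (Finset.Subset.antisymm hN (Finset.sdiff_eq_empty_iff_subset.mp h))
  have h1 := hC.2 N (U₀ \ N) (Finset.union_sdiff_of_subset hN) hN0 hT Finset.disjoint_sdiff
  push Not at h1
  obtain ⟨a, ha, b, hb, hab⟩ := h1
  rw [Finset.mem_sdiff] at hb
  refine ⟨N', hsub, Finset.card_lt_card ⟨hNN', fun h => hb.2 (h ?_)⟩, hNN', ?_⟩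
  · rw [hN', Finset.mem_union, Finset.mem_filter]
    right
    refine ⟨hb.1, a, ha, ?_⟩
    by_cases h2 : a < b
    · exact Or.inr h2
    · exact Or.inl (hab h2)
  · intro x hx hxN
    refine ⟨?_, ?_⟩
    · have h2 := hx
      rw [hN', Finset.mem_union, Finset.mem_filter] at h2
      obtain ⟨-, y, hy, hxy⟩ := h2.resolve_left hxN
      rcases hxy with h3 | h3
      · exact Or.inl ⟨y, hNN' hy, covIn_of_lt hU₀ hsub hx (hNN' hy) h3, Or.inl hy⟩
      · exact Or.inr ⟨y, hNN' hy, covIn_of_lt hU₀ hsub (hNN' hy) hx h3, Or.inl hy⟩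
    · rintro ⟨⟨a, ha, hxa, -⟩, b, hb, hbx, -⟩
      exact hU₀ b (hsub hb) x (hsub hx) a (hsub ha) hbx.1 hxa.1

theorem exists_chain {w : P → ℤ} (hC : Cnn U₀) (s : ℕ) (j : ℕ) :
    ∀ N ⊆ U₀, N.Nonempty → U₀.card - N.card ≤ j → ∀ m, 0 < ct w s m N →
      ∃ m', 0 < ct w s m' U₀ := by
  classical
  induction j with
  | zero =>
    intro N hN _ hj m hm
    have h1 : N = U₀ := Finset.eq_of_subset_of_card_le hN (by omega)
    exact ⟨m, h1 ▸ hm⟩
  | succ j ih =>
    intro N hN hN0 hj m hm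
    by_cases hne : N = U₀
    · exact ⟨m, hne ▸ hm⟩
    · obtain ⟨N', hN', hlt, hcore⟩ := exists_bigger (w := w) hU₀ hC hN hN0 hne
      have h1 := Finset.card_le_card hN'
      refine ih N' hN' (hN0.mono hcore.1) (by omega) (m + 1) ?_
      rw [ct]
      refine Finset.sum_pos' (fun _ _ => Nat.zero_le _) ⟨N, Finset.mem_powerset.mpr hcore.1, ?_⟩
      rw [if_pos hcore]
      exact hm

omit hU₀ in
/-- the local maximum of a largest set with one local maximum -/
theorem max_of_max {w : P → ℤ} (hw : Function.Injective w) {N : Finset P} (hN : N ⊆ U₀)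
    (h1 : (Mx w N).card = 1)
    (hmax : ∀ N' ⊆ U₀, (Mx w N').card = 1 → N'.card ≤ N.card) : Mx w N ⊆ Mx w U₀ := by
  classical
  intro z hz
  by_contra hz0
  obtain ⟨hzN, hz1⟩ := mem_Mx.mp hz
  rw [mem_Mx, not_and] at hz0
  have h2 := hz0 (hN hzN)
  push Not at h2
  obtain ⟨a, ha, hza, hle⟩ := h2
  have hne : a ≠ z := by
    rintro rfl
    rcases hza with h | h
    · exact lt_irrefl _ h
    · exact lt_irrefl _ h
  have hlt : w z < w a := lt_of_le_of_ne hle (fun h => hne (hw h).symm)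
  have haN : a ∉ N := by
    intro h
    have := hz1 a h hza
    omega
  have h3 : Mx w (insert a N) ⊆ {a} := by
    intro x hx
    obtain ⟨hx1, hx2⟩ := mem_Mx.mp hx
    rw [Finset.mem_singleton]
    by_contra hxa
    have hxN : x ∈ N := (Finset.mem_insert.mp hx1).resolve_left hxa
    by_cases hxz : x = z
    · subst hxz
      have := hx2 a (Finset.mem_insert_self a N) hza
      omega
    · have h4 : x ∉ Mx w N := by
        intro h5
        obtain ⟨u, hu⟩ := Finset.card_eq_one.mp h1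
        rw [hu, Finset.mem_singleton] at h5 hz
        exact hxz (h5.trans hz.symm)
      apply h4
      rw [mem_Mx]
      exact ⟨hxN, fun b hb hxb => hx2 b (Finset.mem_insert_of_mem hb) hxb⟩
  have h4 : (Mx w (insert a N)).card = 1 := by
    have h5 := Finset.card_pos.mpr (Mx_nonempty hw (Finset.insert_nonempty a N))
    have h6 := Finset.card_le_card h3
    rw [Finset.card_singleton] at h6
    omega
  have h5 := hmax (insert a N) (Finset.insert_subset ha hN) h4
  rw [Finset.card_insert_of_notMem haN] at h5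
  omega

/-- **all local maxima on one side: there is a word with nonzero linear term** -/
theorem exists_word {ω : P → ℕ} (hω : Function.Injective ω) (k : Bool) (hC : Cnn U₀)
    (hside : Mx (Cut.wt ω k) U₀ ⊆ Tp U₀ ∨ Disjoint (Mx (Cut.wt ω k) U₀) (Tp U₀)) :
    ∃ (l : List (Bool × ℚ)) (c : Bool) (t : ℚ), lin ω l c t U₀ ≠ 0 := by
  classical
  set w := Cut.wt ω k with hw
  have hinj : Function.Injective w := wt_inj hω k
  obtain ⟨x, hx⟩ := hC.1
  have hne : (U₀.powerset.filter (fun N => (Mx w N).card = 1)).Nonempty := by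
    refine ⟨{x}, ?_⟩
    rw [Finset.mem_filter, Finset.mem_powerset, Finset.singleton_subset_iff]
    refine ⟨hx, ?_⟩
    have h1 : Mx w {x} = {x} := by
      ext y
      rw [mem_Mx, Finset.mem_singleton]
      constructor
      · exact fun h => h.1
      · rintro rfl
        refine ⟨rfl, fun a ha h => ?_⟩
        rw [Finset.mem_singleton] at ha
        subst ha
        rcases h with h | h
        · exact absurd h (lt_irrefl _)
        · exact absurd h (lt_irrefl _)
    rw [h1, Finset.card_singleton]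
  obtain ⟨N, hN, hmax⟩ := Finset.exists_max_image _ (fun N => N.card) hne
  rw [Finset.mem_filter, Finset.mem_powerset] at hN
  have hN0 : N.Nonempty := by
    rw [Finset.nonempty_iff_ne_empty]
    rintro rfl
    have h1 : Mx w (∅ : Finset P) = ∅ := by
      ext y
      simp [mem_Mx]
    rw [h1] at hN
    simp at hN
  have hmax' : ∀ N' ⊆ U₀, (Mx w N').card = 1 → N'.card ≤ N.card := fun N' h1 h2 =>
    hmax N' (Finset.mem_filter.mpr ⟨Finset.mem_powerset.mpr h1, h2⟩)
  have hs : 0 < N.card := Finset.card_pos.mpr hN0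
  obtain ⟨ε, hε0, hε⟩ : ∃ ε : ℚ, ε ≠ 0 ∧ ∀ N' ⊆ U₀, (Mx w N').card = 1 → N'.card = N.card →
      (-1 : ℚ) ^ (Tp U₀ ∩ Mx w N').card = ε := by
    rcases hside with h | h
    · refine ⟨-1, by norm_num, fun N' h1 h2 h3 => ?_⟩
      have h4 := max_of_max hinj h1 h2 (fun N'' h5 h6 => h3 ▸ hmax' N'' h5 h6)
      rw [Finset.inter_eq_right.mpr (h4.trans h), h2, pow_one]
    · refine ⟨1, by norm_num, fun N' h1 h2 h3 => ?_⟩
      have h4 := max_of_max hinj h1 h2 (fun N'' h5 h6 => h3 ▸ hmax' N'' h5 h6)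
      have h5 : Tp U₀ ∩ Mx w N' = ∅ := by
        rw [← Finset.disjoint_iff_inter_eq_empty]
        exact (Finset.disjoint_of_subset_left h4 h).symm
      rw [h5, Finset.card_empty, pow_zero]
  obtain ⟨m, hm⟩ := exists_chain (w := w) hU₀ hC N.card (U₀.card - N.card) N hN.1 hN0 le_rfl 0
    (by rw [ct, if_pos ⟨hN.2, rfl⟩]; exact Nat.one_pos)
  have hF : FF w U₀ m U₀ ≠ 0 := by
    intro h
    have h1 := FF_coeff hε hs m (Finset.Subset.refl U₀)
    rw [h, coeff_zero] at h1
    have h2 : (ct w N.card m U₀ : ℚ) ≠ 0 := Nat.cast_ne_zero.mpr hm.ne'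
    exact mul_ne_zero hε0 h2 h1.symm
  obtain ⟨t, ht⟩ : ∃ t : ℚ, (FF w U₀ m U₀).eval t ≠ 0 := by
    by_contra h1
    push Not at h1
    exact hF (Polynomial.funext (fun y => by rw [h1 y, eval_zero]))
  rw [hw, FF_eval hU₀ hω k t m (Finset.Subset.refl U₀)] at ht
  exact ⟨List.replicate m (k, 1), !k, t, right_ne_zero_of_mul ht⟩

end OneSide

end Pool.Agent.Lib.MP_5bc52d_co.LinTerm
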