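import Mathlib
import Pool.Agent.Lib.MP_5bc52d_co.LinTerm.Dec
import Pool.Agent.Lib.MP_5bc52d_co.LinTerm.OneSide

/-!
# Removing a part of a set on the level of sums of products with prescribed degrees
-/

open Finset Polynomial

set_option linter.unusedSectionVars false

namespace Pool.Agent.Lib.MP_5bc52d_co.LinTerm

open Pool.Agent.Lib.MP_5bc52d_co.Key Pool.Agent.Lib.MP_5bc52d_co.Cut
  Pool.Agent.Lib.MP_5bc52d_co.Tree Pool.Agent.Lib.MP_5bc52d_co.Cyc

namespace Dec

section alg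
variable {Q : Subring R} (hQ : ∀ F : R, F ∈ Q ↔ IsQS F)

/-- sums of products of homogeneous elements of degrees `a` and `n - a`, for `a` in `S` -/
noncomputable def Decs (Q : Subring R) (n : ℕ) (S : Finset ℕ) : AddSubgroup Q :=
  AddSubgroup.closure {f | ∃ a ∈ S, ∃ x ∈ homQ Q a, ∃ y ∈ homQ Q (n - a), f = x * y}

theorem mul_mem_Decs {n : ℕ} {S : Finset ℕ} {a : ℕ} (ha : a ∈ S) {x y : Q}
    (hx : x ∈ homQ Q a) (hy : y ∈ homQ Q (n - a)) : x * y ∈ Decs Q n S :=
  AddSubgroup.subset_closure ⟨a, ha, x, hx, y, hy, rfl⟩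

theorem io_mul_mem_Decs {n : ℕ} {S : Finset ℕ} {f : Q} (hf : f ∈ Decs Q n S) (q : ℚ) :
    io hQ q * f ∈ Decs Q n S := by
  induction hf using AddSubgroup.closure_induction with
  | mem f hf =>
    obtain ⟨a, ha, x, hx, y, hy, rfl⟩ := hf
    rw [← mul_assoc]
    refine mul_mem_Decs ha ?_ hy
    have h1 := homQ_mul (io_mem hQ q) hx
    rwa [zero_add] at h1
  | zero =>
    rw [mul_zero]
    exact AddSubgroup.zero_mem _
  | add f g _ _ h1 h2 =>
    rw [mul_add]
    exact AddSubgroup.add_mem _ h1 h2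
  | neg f _ h1 =>
    rw [mul_neg]
    exact AddSubgroup.neg_mem _ h1

/-- the degrees after removing a part of size `k` -/
def nxt (n k : ℕ) (S : Finset ℕ) : Finset ℕ :=
  (S.filter (fun a => a < n - k)) ∪ (S.filter (fun a => k < a)).image (fun a => a - k)

theorem nxt_card (n k : ℕ) (S : Finset ℕ) : (nxt n k S).card ≤ 2 * S.card := by
  refine (Finset.card_union_le _ _).trans ?_
  have h1 := Finset.card_filter_le S (fun a => a < n - k)
  have h2 := (Finset.card_image_le (s := S.filter (fun a => k < a)) (f := fun a => a - k)).trans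
    (Finset.card_filter_le S (fun a => k < a))
  omega

theorem nxt_mem {n k : ℕ} {S : Finset ℕ} (hS : ∀ a ∈ S, 0 < a ∧ a < n) :
    ∀ a ∈ nxt n k S, 0 < a ∧ a < n - k := by
  intro a ha
  rw [nxt, Finset.mem_union, Finset.mem_filter, Finset.mem_image] at ha
  rcases ha with ha | ⟨b, hb, rfl⟩
  · exact ⟨(hS a ha.1).1, ha.2⟩
  · rw [Finset.mem_filter] at hb
    have := hS b hb.1
    omega

/-- a derivation which lowers the degree by `k` -/
theorem map_Decs {D : Q →+ Q} (hmul : ∀ f g, D (f * g) = f * D g + g * D f) {n k : ℕ}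
    {S : Finset ℕ} (hS : ∀ a ∈ S, 0 < a ∧ a < n ∧ a ≠ k ∧ n - a ≠ k) {f : Q}
    (hf : f ∈ Decs Q n S) : hp hQ (n - k) (D f) ∈ Decs Q (n - k) (nxt n k S) := by
  induction hf using AddSubgroup.closure_induction with
  | mem f hf =>
    obtain ⟨a, ha, x, hx, y, hy, rfl⟩ := hf
    obtain ⟨h1, h2, h3, h4⟩ := hS a ha
    rw [hmul, map_add, hp_mul hQ hx, hp_mul hQ hy]
    apply AddSubgroup.add_mem
    · split_ifs with h5
      · refine mul_mem_Decs (a := a) ?_ hx (hp_mem hQ _ _)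
        rw [nxt, Finset.mem_union, Finset.mem_filter]
        exact Or.inl ⟨ha, by omega⟩
      · exact AddSubgroup.zero_mem _
    · split_ifs with h5
      · rw [mul_comm]
        have h6 : k < a := by omega
        refine mul_mem_Decs (a := a - k) ?_ ?_ ?_
        · rw [nxt, Finset.mem_union, Finset.mem_image]
          exact Or.inr ⟨a, Finset.mem_filter.mpr ⟨ha, h6⟩, rfl⟩
        · have h7 : n - k - (n - a) = a - k := by omega
          rw [h7]
          exact hp_mem hQ _ _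
        · have h7 : n - k - (a - k) = n - a := by omega
          rw [h7]
          exact hy
      · exact AddSubgroup.zero_mem _
  | zero =>
    rw [map_zero, map_zero]
    exact AddSubgroup.zero_mem _
  | add f g _ _ h1 h2 =>
    rw [map_add, map_add]
    exact AddSubgroup.add_mem _ h1 h2
  | neg f _ h1 =>
    rw [map_neg, map_neg]
    exact AddSubgroup.neg_mem _ h1

/-- all degrees are positive: the sum lies in the square of the ideal of elements without
constant term -/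
theorem Decs_le_sq {n : ℕ} {S : Finset ℕ} (hS : ∀ a ∈ S, 0 < a ∧ a < n) {f : Q}
    (hf : f ∈ Decs Q n S) : f ∈ (RingHom.ker (cc Q)) ^ 2 := by
  induction hf using AddSubgroup.closure_induction with
  | mem f hf =>
    obtain ⟨a, ha, x, hx, y, hy, rfl⟩ := hf
    have h1 := hS a ha
    rw [pow_two]
    apply Ideal.mul_mem_mul
    · rw [RingHom.mem_ker]
      exact cc_homQ hx (by omega)
    · rw [RingHom.mem_ker]
      exact cc_homQ hy (by omega)
  | zero => exact Submodule.zero_mem _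
  | add f g _ _ h1 h2 => exact Submodule.add_mem _ h1 h2
  | neg f _ h1 => exact Submodule.neg_mem _ h1

end alg

section main
variable {P : Type*} [Fintype P] [DecidableEq P] [PartialOrder P]
variable {Q : Subring R} (hQ : ∀ F : R, F ∈ Q ↔ IsQS F)

theorem peel_abs {ω : P → ℕ} {r : P → P → Prop} {D : Q →+ Q} {lam : Finset P → ℚ}
    (hmul : ∀ f g, D (f * g) = f * D g + g * D f)
    (hG : ∀ U : Finset P, D (GamQ hQ ω U) =
      ∑ I ∈ dn r U, io hQ (lam I) * GamQ hQ ω (U \ I))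
    (hlam : ∀ I, lam I ≠ 0 → Cnn I) {U F : Finset P} (hF : F ∈ dn r U) (hF0 : lam F ≠ 0)
    (huniq : ∀ F' ∈ dn r U, Cnn F' → F'.card = F.card → F' = F) {S : Finset ℕ}
    (hS : ∀ a ∈ S, 0 < a ∧ a < U.card ∧ a ≠ F.card ∧ U.card - a ≠ F.card)
    (h : GamQ hQ ω U ∈ Decs Q U.card S) :
    ∃ S' : Finset ℕ, S'.card ≤ 2 * S.card ∧ (∀ a ∈ S', 0 < a ∧ a < U.card - F.card) ∧
      GamQ hQ ω (U \ F) ∈ Decs Q (U.card - F.card) S' := by
  refine ⟨nxt U.card F.card S, nxt_card _ _ _, nxt_mem (fun a ha => ⟨(hS a ha).1, (hS a ha).2.1⟩),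
    ?_⟩
  have h1 := map_Decs hQ hmul hS h
  have hFc := Finset.card_le_card (mem_dn.mp hF).1
  have h2 : hp hQ (U.card - F.card) (D (GamQ hQ ω U)) =
      io hQ (lam F) * GamQ hQ ω (U \ F) := by
    rw [hG, map_sum, Finset.sum_eq_single F]
    · have h3 := homQ_mul (io_mem hQ (lam F)) (GamQ_homQ hQ ω (U \ F))
      rw [hp_of_mem hQ h3, if_pos]
      rw [zero_add, Finset.card_sdiff_of_subset (mem_dn.mp hF).1]
    · intro I hI hne
      have h3 := homQ_mul (io_mem hQ (lam I)) (GamQ_homQ hQ ω (U \ I))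
      rw [hp_of_mem hQ h3]
      split_ifs with h4
      · rw [zero_add, Finset.card_sdiff_of_subset (mem_dn.mp hI).1] at h4
        have hIc := Finset.card_le_card (mem_dn.mp hI).1
        have h5 : lam I = 0 := by
          by_contra h5
          exact hne (huniq I hI (hlam I h5) (by omega))
        rw [h5, map_zero, zero_mul]
      · rfl
    · exact fun h' => absurd hF h'
  rw [h2] at h1
  have h3 := io_mul_mem_Decs hQ h1 (lam F)⁻¹
  rwa [← mul_assoc, ← map_mul, inv_mul_cancel₀ hF0, map_one, one_mul] at h3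

/-- **removing an upper part** -/
theorem peel_up {ω : P → ℕ} (hω : Function.Injective ω) {U F : Finset P} (hFU : F ⊆ U)
    (hup : ∀ a ∈ U, ∀ b ∈ F, b < a → a ∈ F)
    (hF0 : ∃ (l : List (Bool × ℚ)) (c : Bool) (t : ℚ), lin ω l c t F ≠ 0)
    (huniq : ∀ F' ⊆ U, (∀ a ∈ U, ∀ b ∈ F', b < a → a ∈ F') → Cnn F' → F'.card = F.card → F' = F)
    {S : Finset ℕ} (hS : ∀ a ∈ S, 0 < a ∧ a < U.card ∧ a ≠ F.card ∧ U.card - a ≠ F.card)
    (h : GamQ hQ ω U ∈ Decs Q U.card S) :
    ∃ S' : Finset ℕ, S'.card ≤ 2 * S.card ∧ (∀ a ∈ S', 0 < a ∧ a < U.card - F.card) ∧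
      GamQ hQ ω (U \ F) ∈ Decs Q (U.card - F.card) S' := by
  obtain ⟨l, c, t, hl⟩ := hF0
  exact peel_abs hQ (r := fun a b : P => b < a) (lam := lin ω l c t)
    (dv_mul hQ (triv_hi hQ l c t)) (dv_hi_Gam hQ hω l c t)
    (fun I hI => cnn_of_lin hQ hω hI) (mem_dn.mpr ⟨hFU, hup⟩) hl
    (fun F' hF' => huniq F' (mem_dn.mp hF').1 (mem_dn.mp hF').2) hS h

/-- **removing a lower part** -/
theorem peel_dn {ω : P → ℕ} (hω : Function.Injective ω) {U F : Finset P} (hFU : F ⊆ U)
    (hdn : ∀ a ∈ U, ∀ b ∈ F, a < b → a ∈ F)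
    (hF0 : ∃ (l : List (Bool × ℚ)) (c : Bool) (t : ℚ), lin ω l c t F ≠ 0)
    (huniq : ∀ F' ⊆ U, (∀ a ∈ U, ∀ b ∈ F', a < b → a ∈ F') → Cnn F' → F'.card = F.card → F' = F)
    {S : Finset ℕ} (hS : ∀ a ∈ S, 0 < a ∧ a < U.card ∧ a ≠ F.card ∧ U.card - a ≠ F.card)
    (h : GamQ hQ ω U ∈ Decs Q U.card S) :
    ∃ S' : Finset ℕ, S'.card ≤ 2 * S.card ∧ (∀ a ∈ S', 0 < a ∧ a < U.card - F.card) ∧
      GamQ hQ ω (U \ F) ∈ Decs Q (U.card - F.card) S' := by
  obtain ⟨l, c, t, hl⟩ := hF0
  exact peel_abs hQ (r := fun a b : P => a < b) (lam := lin ω l c t)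
    (dv_mul hQ (triv_lo hQ l c t)) (dv_lo_Gam hQ hω l c t)
    (fun I hI => cnn_of_lin hQ hω hI) (mem_dn.mpr ⟨hFU, hdn⟩) hl
    (fun F' hF' => huniq F' (mem_dn.mp hF').1 (mem_dn.mp hF').2) hS h

/-- a reducible generating function is a product of two parts of positive degrees -/
theorem exists_dec (ω : P → ℕ) {U : Finset P} (hU : U.Nonempty)
    (h : ¬ Irreducible (GamQ hQ ω U)) :
    ∃ a, 0 < a ∧ a < U.card ∧ GamQ hQ ω U ∈ Decs Q U.card {a} := by
  have hD : IsDomain R := NoZeroDivisors.to_isDomain R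
  have hDQ : IsDomain Q := inferInstance
  have hnu : ¬ IsUnit (GamQ hQ ω U) := by
    intro hu
    have h1 := isUnit_mem_homQ hQ hu
    have h2 := homQ_unique (GamQ_ne_zero hQ ω U) h1 (GamQ_homQ hQ ω U)
    have h3 := Finset.card_pos.mpr hU
    omega
  rw [irreducible_iff] at h
  push Not at h
  obtain ⟨f, g, hfg, hf, hg⟩ := h hnu
  have h0 : f * g ≠ 0 := hfg ▸ GamQ_ne_zero hQ ω U
  obtain ⟨a, b, hab, hfa, hgb⟩ := homQ_factor hQ h0 (hfg ▸ GamQ_homQ hQ ω U)
  have ha : a ≠ 0 := by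
    rintro rfl
    exact hf (isUnit_of_homQ_zero hQ hfa (left_ne_zero_of_mul h0))
  have hb : b ≠ 0 := by
    rintro rfl
    exact hg (isUnit_of_homQ_zero hQ hgb (right_ne_zero_of_mul h0))
  refine ⟨a, by omega, by omega, ?_⟩
  rw [hfg]
  refine mul_mem_Decs (Finset.mem_singleton_self a) hfa ?_
  rw [← hab, Nat.add_sub_cancel_left]
  exact hgb

theorem notMem_sq_of_lin {ω : P → ℕ} (hω : Function.Injective ω) {U : Finset P}
    (h : ∃ (l : List (Bool × ℚ)) (c : Bool) (t : ℚ), lin ω l c t U ≠ 0) :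
    GamQ hQ ω U ∉ (RingHom.ker (cc Q)) ^ 2 := by
  intro hsq
  obtain ⟨l, c, t, h1⟩ := h
  obtain ⟨x, hx⟩ := (cnn_of_lin hQ hω h1).1
  apply h1
  have h2 := evW_Gam hQ hω x l c t U
  rw [evW, Wd] at h2
  rw [lin, Wd, ← h2]
  have h3 := functional_sq
    (((Polynomial.lcoeff ℚ 1).toAddMonoidHom).comp
      ((evL ((C : ℚ →+* ℚ[X]).comp ((algebraMap ℚ ℚ).comp (cc Q))) (lo hQ)
      (l.map (fun q => (q.1, (C q.2 : ℚ[X]))) ++ ([(!c, C t), (c, X - C t)] ++
        (mir l).map (fun q => (q.1, (C q.2 : ℚ[X])))) )) : Q →+* ℚ[X]).toAddMonoidHom)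
    (fun a b ha hb => by
      have hz : ∀ {k : Q}, cc Q k = 0 → ((algebraMap ℚ ℚ).comp (cc Q)) k = 0 := by
        intro k hk
        rw [RingHom.comp_apply, hk, map_zero]
      exact evL_mul_coeff_one (lo_inv hQ) l c t (hz ha) (hz hb)) hsq
  exact h3

/-- the end of the peeling -/
theorem not_dec {ω : P → ℕ} (hω : Function.Injective ω) {V : Finset P}
    (h : ∃ (l : List (Bool × ℚ)) (c : Bool) (t : ℚ), lin ω l c t V ≠ 0) {S : Finset ℕ}
    (hS : ∀ a ∈ S, 0 < a ∧ a < V.card) : GamQ hQ ω V ∉ Decs Q V.card S :=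
  fun h1 => notMem_sq_of_lin hQ hω h (Decs_le_sq hS h1)

end main

section star
variable {P : Type*} [Fintype P] [DecidableEq P] [PartialOrder P]

theorem cnn_star {F : Finset P} {z : P} (hz : z ∈ F) (h : ∀ x ∈ F, x ≠ z → x < z ∨ z < x) :
    Cnn F := by
  refine ⟨⟨z, hz⟩, fun S T hST hS hT hd hno => ?_⟩
  have hzST : z ∈ S ∨ z ∈ T := by
    rw [← Finset.mem_union, hST]
    exact hz
  rcases hzST with h1 | h1
  · obtain ⟨b, hb⟩ := hT
    have hbz : b ≠ z := by
      rintro rfl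
      exact (Finset.disjoint_left.mp hd h1) hb
    have hbF : b ∈ F := by
      rw [← hST]
      exact Finset.mem_union_right _ hb
    rcases h b hbF hbz with h2 | h2
    · exact (hno z h1 b hb).2 h2
    · exact (hno z h1 b hb).1 h2
  · obtain ⟨b, hb⟩ := hS
    have hbz : b ≠ z := by
      rintro rfl
      exact (Finset.disjoint_left.mp hd hb) h1
    have hbF : b ∈ F := by
      rw [← hST]
      exact Finset.mem_union_left _ hb
    rcases h b hbF hbz with h2 | h2
    · exact (hno b hb z h1).1 h2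
    · exact (hno b hb z h1).2 h2

/-- **stars** have nonzero linear terms -/
theorem star_word {ω : P → ℕ} (hω : Function.Injective ω) {F : Finset P}
    (hF : Low (fun a b : P => a < b) F) {z : P} (hz : z ∈ F)
    (h : ∀ x ∈ F, x ≠ z → x < z ∨ z < x) :
    ∃ (l : List (Bool × ℚ)) (c : Bool) (t : ℚ), lin ω l c t F ≠ 0 := by
  classical
  apply OneSide.exists_word hF hω true (cnn_star hz h)
  by_cases hzM : z ∈ OneSide.Mx (Cut.wt ω true) F
  · have h1 : OneSide.Mx (Cut.wt ω true) F = {z} := by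
      ext x
      rw [Finset.mem_singleton]
      constructor
      · intro hx
        by_contra hxz
        have h2 := OneSide.mem_Mx.mp hx
        have h3 := OneSide.mem_Mx.mp hzM
        have h4 := h x h2.1 hxz
        have h5 := h2.2 z hz h4
        have h6 := h3.2 x h2.1 h4.symm
        omega
      · rintro rfl
        exact hzM
    rw [h1]
    by_cases h2 : z ∈ OneSide.Tp F
    · exact Or.inl (Finset.singleton_subset_iff.mpr h2)
    · exact Or.inr (Finset.disjoint_singleton_left.mpr h2)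
  · by_cases h2 : ∃ a ∈ F, z < a
    · left
      intro x hx
      have hxF := (OneSide.mem_Mx.mp hx).1
      have hxz : x ≠ z := by
        rintro rfl
        exact hzM hx
      rw [OneSide.mem_Tp]
      refine ⟨hxF, z, hz, ?_⟩
      rcases h x hxF hxz with h3 | h3
      · obtain ⟨a, ha, hza⟩ := h2
        exact absurd hza (hF x hxF z hz a ha h3)
      · exact h3
    · right
      rw [Finset.disjoint_left]
      intro x hx hxT
      have hxF := (OneSide.mem_Mx.mp hx).1
      have hxz : x ≠ z := by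
        rintro rfl
        exact hzM hx
      obtain ⟨-, a, ha, hax⟩ := OneSide.mem_Tp.mp hxT
      rcases h x hxF hxz with h3 | h3
      · exact hF a ha x hxF z hz hax h3
      · exact h2 ⟨x, hxF, h3⟩

end star

end Dec

end Pool.Agent.Lib.MP_5bc52d_co.LinTerm
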